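import Mathlib
import Pool.Agent.H77.Q1.Near
import Pool.Agent.Q1.M6c.Dob

set_option autoImplicit false
open Finset

/-! **Wall sum (D4), interface**: the sides of the full cells. A dart `(q, d)` is a full cell `q` with a
unit vector `d` such that `q + d` is not full. -/

namespace Pool.Agent.H30.Cell

open Pool.Agent.H75.Perc Pool.Agent.H75.TwoArm Pool.Agent.H75.Four Pool.Agent.H77.Q1
open Pool.Agent.Q1 (Env)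
open Pool.Agent.Q1.M6c (Dobr DEnvX mm)
open Pool.Agent.H68.Q1 (recd)

/-- the vertex at the middle of the side `d` of the cell `q` -/
def wp (n : ℤ) (q d : ℤ × ℤ) : ℤ × ℤ :=
  (if d.1 = 0 then n * q.1 + n / 2 else if d.1 = 1 then n * q.1 + n - 1 else n * q.1,
   if d.2 = 0 then n * q.2 + n / 2 else if d.2 = 1 then n * q.2 + n - 1 else n * q.2)

/-- a dart -/
def Dart (n : ℤ) (E : Finset (ℤ × ℤ)) (q d : ℤ × ℤ) : Prop :=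
  Full n E q ∧ IsUnit4 d ∧ ¬ Full n E (q + d)

/-- the next dart `(q2, d2)` after `(q, d)` in the direction `t`: straight, convex, reflex -/
def Nxt (n : ℤ) (E : Finset (ℤ × ℤ)) (q d t q2 d2 : ℤ × ℤ) : Prop :=
  (Full n E (q + t) ∧ ¬ Full n E (q + t + d) ∧ q2 = q + t ∧ d2 = d) ∨
  (¬ Full n E (q + t) ∧ q2 = q ∧ d2 = t) ∨
  (Full n E (q + t) ∧ Full n E (q + t + d) ∧ q2 = q + t + d ∧ d2 = -t)

/-- from the centre to the middle of a side -/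
def SIDE0 : Prop := ∃ C : ℝ, 0 < C ∧ ∀ (n : ℤ) (N : ℕ) (X : Env) (W : Finset (ℤ × ℤ))
  (Hv Hf : ℤ × ℤ → ℂ) (q d : ℤ × ℤ), 64 ≤ n → n ≤ N → DEnvX X W → PotC n X Hv Hf →
  Full n X.E q → IsUnit4 d →
    ‖Hv (ctc n q) - Hv (wp n q d)‖ ≤ C * (recd mm N + 1) * (n : ℝ) ^ (2 / 3 : ℝ)

/-- along a solid side -/
def SIDE1 : Prop := ∃ C : ℝ, 0 < C ∧ ∀ (n : ℤ) (N : ℕ) (X : Env) (W : Finset (ℤ × ℤ))
  (Hv Hf : ℤ × ℤ → ℂ) (q d t q2 d2 : ℤ × ℤ), 64 ≤ n → n ≤ N → DEnvX X W → PotC n X Hv Hf →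
  lab X.c0 ∈ X.E → Dart n X.E q d → IsUnit4 t → d.1 * t.1 + d.2 * t.2 = 0 →
  Nxt n X.E q d t q2 d2 →
  (∀ l : ℤ × ℤ, (l.1 + l.2) % 2 = 1 → cel n l = q + d → l ∈ W) ∨
    (∀ l : ℤ × ℤ, (l.1 + l.2) % 2 = 1 → cel n l = q + d → l ∉ X.E ∧ l ∉ W) →
  (∀ l : ℤ × ℤ, (l.1 + l.2) % 2 = 1 → cel n l = q2 + d2 → l ∈ W) ∨
    (∀ l : ℤ × ℤ, (l.1 + l.2) % 2 = 1 → cel n l = q2 + d2 → l ∉ X.E ∧ l ∉ W) →
  ¬ (|q.1 - (cel n (lab X.c0)).1| ≤ 2 ∧ |q.2 - (cel n (lab X.c0)).2| ≤ 2) →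
  ¬ (|q2.1 - (cel n (lab X.c0)).1| ≤ 2 ∧ |q2.2 - (cel n (lab X.c0)).2| ≤ 2) →
    ‖Hv (wp n q d) - Hv (wp n q2 d2)‖ ≤ C * (n : ℝ) ^ (2 / 3 : ℝ)

end Pool.Agent.H30.Cell
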