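import Mathlib
import Pool.Agent.H30.Cell.SideDefs
import Pool.Agent.Q1.Freeze

set_option autoImplicit false
open Finset

/-! **Wall sum (D4)**: from the centre of a full cell to the middle of a side. -/

namespace Pool.Agent.H30.Cell

open Pool.Agent.H75.Perc Pool.Agent.H75.TwoArm Pool.Agent.H75.Four Pool.Agent.H77.Q1
open Pool.Agent.Q1 (Env PrimAt)
open Pool.Agent.Q1.M6c (Dobr DEnvX PlaneK mm InQ)
open Pool.Agent.H68.Q1 (recd recd_nonneg seg_sum)
open Pool.Agent.H99.NC (PrP PrP_le_one)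

variable {n : ℤ} {N : ℕ} {X : Env} {Hv Hf : ℤ × ℤ → ℂ} {q : ℤ × ℤ}

lemma inc_le (X : Env) (c : ℤ × ℤ) : ‖X.inc c‖ ≤ 1 := by
  refine (Env.inc_norm X c).trans ?_
  exact PrP_le_one (fun _ => ⟨by norm_num, by norm_num⟩) _ _

lemma en_fi (e : ℤ × ℤ) (he : (e.1 + e.2) % 2 = 1) : vx (nxC (in1 e)) = vx (in1 e) ∧
    fi (nxC (in1 e)) = fi (in2 e) ∧ ((vx (in1 e) = eu e ∧ vx (in2 e) = ev e) ∨
      (vx (in1 e) = ev e ∧ vx (in2 e) = eu e)) := by
  obtain ⟨a, b⟩ := e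
  simp only at he
  rcases Int.even_or_odd' a with ⟨x, hx | hx⟩
  · obtain ⟨y, hy⟩ : ∃ y, b = 2 * y + 1 := ⟨b / 2, by omega⟩
    subst hx; subst hy
    have e1 : in1 (2 * x, 2 * y + 1) = (2 * x, 2 * (y + 1)) := by
      unfold in1; rw [if_neg (by simp only; omega)]
      exact Prod.ext rfl (by simp only; ring)
    have e2 : in2 (2 * x, 2 * y + 1) = (2 * x + 1, 2 * y + 1) := by
      unfold in2; rw [if_neg (by simp only; omega)]
    rw [e1, e2, nxC00]
    unfold vx fi eu ev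
    refine ⟨Prod.ext ?_ ?_, Prod.ext ?_ ?_, Or.inr ⟨Prod.ext ?_ ?_, Prod.ext ?_ ?_⟩⟩ <;>
      simp only <;> omega
  · obtain ⟨y, hy⟩ : ∃ y, b = 2 * y := ⟨b / 2, by omega⟩
    subst hx; subst hy
    have e1 : in1 (2 * x + 1, 2 * y) = (2 * x + 1, 2 * y) := by
      unfold in1; rw [if_pos (by simp only; omega)]
    have e2 : in2 (2 * x + 1, 2 * y) = (2 * (x + 1), 2 * y + 1) := by
      unfold in2; rw [if_pos (by simp only; omega)]
      exact Prod.ext (by simp only; ring) rfl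
    rw [e1, e2, nxC10]
    unfold vx fi eu ev
    refine ⟨Prod.ext ?_ ?_, Prod.ext ?_ ?_, Or.inl ⟨Prod.ext ?_ ?_, Prod.ext ?_ ?_⟩⟩ <;>
      simp only <;> omega

/-- the ends of a label in a full cell -/
lemma edge_step (hH : PotC n X Hv Hf) {e : ℤ × ℤ} (he : (e.1 + e.2) % 2 = 1)
    (hF : Full n X.E (cel n e)) : ‖Hv (eu e) - Hv (ev e)‖ ≤ 2 := by
  obtain ⟨h1, h2, h3⟩ := en_fi e he
  have k1 := hH e he hF (nxC (in1 e)) (Or.inr (Or.inr (Or.inl rfl)))
  have k2 := hH e he hF (in2 e) (Or.inr (Or.inl rfl))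
  rw [h1, h2] at k1
  have e1 : Hv (vx (in1 e)) - Hv (vx (in2 e)) = X.inc (nxC (in1 e)) - X.inc (in2 e) := by
    rw [← k1, ← k2]; ring
  have e2 : ‖Hv (vx (in1 e)) - Hv (vx (in2 e))‖ ≤ 2 := by
    rw [e1]
    refine (norm_sub_le _ _).trans ?_
    have := inc_le X (nxC (in1 e))
    have := inc_le X (in2 e)
    linarith
  rcases h3 with ⟨h3, h4⟩ | ⟨h3, h4⟩ <;> rw [h3, h4] at e2
  · exact e2
  · rwa [norm_sub_rev]

lemma wpR (n : ℤ) (q : ℤ × ℤ) : wp n q (1, 0) = (n * q.1 + n - 1, n * q.2 + n / 2) := rfl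
lemma wpU (n : ℤ) (q : ℤ × ℤ) : wp n q (0, 1) = (n * q.1 + n / 2, n * q.2 + n - 1) := rfl
lemma wpL (n : ℤ) (q : ℤ × ℤ) : wp n q (-1, 0) = (n * q.1, n * q.2 + n / 2) := rfl
lemma wpD (n : ℤ) (q : ℤ × ℤ) : wp n q (0, -1) = (n * q.1 + n / 2, n * q.2) := rfl

/-- the segment from the middle of a side to the centre -/
lemma wp_seg (hn : 64 ≤ n) (q : ℤ × ℤ) {d : ℤ × ℤ} (hd : IsUnit4 d) : ∃ S : ℕ, (S : ℤ) ≤ n / 2 ∧
    ctc n q = ((wp n q d).1 - S * d.1, (wp n q d).2 - S * d.2) ∧ ∀ s : ℕ, s ≤ S →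
      (n * q.1 + s ≤ (wp n q d).1 - s * d.1 ∧ (wp n q d).1 - s * d.1 + s ≤ n * q.1 + n) ∧
      (n * q.2 + s ≤ (wp n q d).2 - s * d.2 ∧ (wp n q d).2 - s * d.2 + s ≤ n * q.2 + n) ∧
      (wp n q d).1 - s * d.1 ≤ n * q.1 + n - 1 ∧ (wp n q d).2 - s * d.2 ≤ n * q.2 + n - 1 := by
  set A := n * q.1 with hA
  set B := n * q.2 with hB
  have hnn : 0 ≤ n - 1 - n / 2 := by omega
  have hnn' : 0 ≤ n / 2 := by omega
  have e1 := Int.toNat_of_nonneg hnn
  have e2 := Int.toNat_of_nonneg hnn'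
  rcases hd with rfl | rfl | rfl | rfl
  · refine ⟨(n - 1 - n / 2).toNat, by omega, ?_, fun s hs => ?_⟩
    · rw [wpR]; unfold ctc; rw [← hA, ← hB]
      refine Prod.ext ?_ ?_ <;> simp only <;> omega
    · rw [wpR]; simp only; rw [← hA, ← hB]; omega
  · refine ⟨(n - 1 - n / 2).toNat, by omega, ?_, fun s hs => ?_⟩
    · rw [wpU]; unfold ctc; rw [← hA, ← hB]
      refine Prod.ext ?_ ?_ <;> simp only <;> omega
    · rw [wpU]; simp only; rw [← hA, ← hB]; omega
  · refine ⟨(n / 2).toNat, by omega, ?_, fun s hs => ?_⟩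
    · rw [wpL]; unfold ctc; rw [← hA, ← hB]
      refine Prod.ext ?_ ?_ <;> simp only <;> omega
    · rw [wpL]; simp only; rw [← hA, ← hB]; omega
  · refine ⟨(n / 2).toNat, by omega, ?_, fun s hs => ?_⟩
    · rw [wpD]; unfold ctc; rw [← hA, ← hB]
      refine Prod.ext ?_ ?_ <;> simp only <;> omega
    · rw [wpD]; simp only; rw [← hA, ← hB]; omega

/-- a box inside a full cell -/
lemma fullB_cell (hn : 1 ≤ n) (hq : Full n X.E q) {x : ℤ × ℤ} {m : ℤ}
    (h1 : n * q.1 + m ≤ x.1 ∧ x.1 + m ≤ n * q.1 + n - 1)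
    (h2 : n * q.2 + m ≤ x.2 ∧ x.2 + m ≤ n * q.2 + n - 1) : FullB n X.E x m := by
  intro l hl
  rw [mem_Bx] at hl
  have hel : (eu l).1 = l.1 / 2 ∧ (eu l).2 = l.2 / 2 := ⟨rfl, rfl⟩
  have : cel n l = q := by
    rw [cel_iff hn]
    unfold inB
    omega
  rw [this]; exact hq

/-- steps inside a full cell -/
lemma cell_step (hn : 1 ≤ n) (hH : PotC n X Hv Hf) (hq : Full n X.E q) {x y : ℤ × ℤ}
    (hu : IsUnit4 (y - x)) (h1 : n * q.1 ≤ x.1 ∧ x.1 ≤ n * q.1 + n - 1)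
    (h2 : n * q.2 ≤ x.2 ∧ x.2 ≤ n * q.2 + n - 1) (h3 : n * q.1 ≤ y.1 ∧ y.1 ≤ n * q.1 + n - 1)
    (h4 : n * q.2 ≤ y.2 ∧ y.2 ≤ n * q.2 + n - 1) : ‖Hv y - Hv x‖ ≤ 2 := by
  have ho : ((x + y).1 + (x + y).2) % 2 = 1 := by
    have := unit_cases hu
    simp only [Prod.fst_add, Prod.snd_add]
    omega
  have hE : (eu (x + y) = x ∧ ev (x + y) = y) ∨ (eu (x + y) = y ∧ ev (x + y) = x) := by
    unfold eu ev
    rcases unit_cases hu with h | h | h | h
    · left; refine ⟨Prod.ext ?_ ?_, Prod.ext ?_ ?_⟩ <;>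
        simp only [Prod.fst_add, Prod.snd_add] <;> omega
    · left; refine ⟨Prod.ext ?_ ?_, Prod.ext ?_ ?_⟩ <;>
        simp only [Prod.fst_add, Prod.snd_add] <;> omega
    · right; refine ⟨Prod.ext ?_ ?_, Prod.ext ?_ ?_⟩ <;>
        simp only [Prod.fst_add, Prod.snd_add] <;> omega
    · right; refine ⟨Prod.ext ?_ ?_, Prod.ext ?_ ?_⟩ <;>
        simp only [Prod.fst_add, Prod.snd_add] <;> omega
  have hc : cel n (x + y) = q := by
    rw [cel_iff hn]
    unfold inB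
    rcases hE with ⟨h5, -⟩ | ⟨h5, -⟩ <;> rw [h5] <;> omega
  have := edge_step hH ho (by rw [hc]; exact hq)
  rcases hE with ⟨h5, h6⟩ | ⟨h5, h6⟩ <;> rw [h5, h6] at this
  · rwa [norm_sub_rev]
  · exact this

/-- **From the centre to the middle of a side.** -/
theorem side0 (hn : 64 ≤ n) (hnN : n ≤ N) (hX : PlaneK X) (hH : PotC n X Hv Hf)
    (hq : Full n X.E q) {d : ℤ × ℤ} (hd : IsUnit4 d) :
    ‖Hv (ctc n q) - Hv (wp n q d)‖ ≤ 128 * (recd mm N + 1) * (n : ℝ) ^ (2 / 3 : ℝ) := by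
  obtain ⟨S, hS, hc, hb⟩ := wp_seg hn q hd
  set w := wp n q d with hw
  have hR := recd_nonneg mm N
  set R := recd mm N with hRR
  set x : ℕ → ℤ × ℤ := fun s => (w.1 - s * d.1, w.2 - s * d.2) with hx
  have hx0 : x 0 = w := by
    rw [hx]; refine Prod.ext ?_ ?_ <;> simp
  have hxS : x S = ctc n q := by rw [hc]
  have hd1 : |d.1| ≤ 1 ∧ |d.2| ≤ 1 := by
    rcases hd with rfl | rfl | rfl | rfl <;> simp
  set h : ℕ → ℂ := fun t => Hv (x (min t S)) with hh
  have hn0 : (1 : ℝ) ≤ (n : ℝ) ^ (2 / 3 : ℝ) := by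
    apply Real.one_le_rpow _ (by norm_num)
    exact_mod_cast (by omega : 1 ≤ n)
  -- small steps
  have hsm : ∀ s : ℕ, s + 1 ≤ S → ‖Hv (x (s + 1)) - Hv (x s)‖ ≤ 2 := by
    intro s hs
    have b1 := hb s (by omega)
    have b2 := hb (s + 1) hs
    refine cell_step (by omega) hH hq ?_ ?_ ?_ ?_ ?_
    · have : x (s + 1) - x s = -d := by
        rw [hx]
        refine Prod.ext ?_ ?_ <;> simp only [Prod.fst_sub, Prod.snd_sub, Prod.fst_neg,
          Prod.snd_neg] <;> push_cast <;> ring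
      rw [this]; exact isUnit4_neg hd
    all_goals rw [hx]; simp only; omega
  have hsum : ∀ s : ℕ, s ≤ S → ‖Hv (x s) - Hv (x 0)‖ ≤ 2 * s := by
    intro s
    induction s with
    | zero => intro _; simp
    | succ s ih =>
      intro hs
      have e : Hv (x (s + 1)) - Hv (x 0) = (Hv (x (s + 1)) - Hv (x s)) + (Hv (x s) - Hv (x 0)) := by
        ring
      rw [e]
      refine (norm_add_le _ _).trans ?_
      have := ih (by omega)
      have := hsm s hs
      push_cast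
      linarith
  by_cases hS64 : S ≤ 64
  · rw [← hxS, ← hx0]
    refine (hsum S le_rfl).trans ?_
    have h1 : (S : ℝ) ≤ 64 := by exact_mod_cast hS64
    nlinarith
  · rw [not_le] at hS64
    have key := seg_sum (h := h) (r := R) (t0 := 64) hR le_rfl (by
      intro t s hs hts
      rw [hh]
      simp only
      set t' := min t S with ht'
      set s' := min (t - s) S with hs'
      have g1 : t' ≤ S := min_le_right _ _
      have g2 : t' ≤ t := min_le_left _ _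
      have g3 : s' ≤ t' := by omega
      have g4 : 4 * (t' - s') ≤ t' - 1 := by omega
      have g5 : 64 ≤ t' := by omega
      have hb' := hb t' g1
      have hFB : FullB n X.E (x t') (t' - 1 : ℕ) := fullB_cell (by omega) hq
        (by rw [hx]; simp only; omega) (by rw [hx]; simp only; omega)
      have := pot_box' (N := N) hX hH (x := x t') (u := x s') (v := x t') (m := t' - 1) (by omega)
        (by omega) hFB ?_ ?_
      · refine this.trans ?_
        refine mul_le_mul_of_nonneg_left ?_ hR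
        exact Real.rpow_le_rpow (by positivity) (by exact_mod_cast (by omega : t' - 1 ≤ t))
          (by norm_num)
      · refine inQ_of ?_ ?_
        · rw [hx]
          simp only
          have e : w.1 - (s' : ℤ) * d.1 - (w.1 - (t' : ℤ) * d.1) = ((t' : ℤ) - s') * d.1 := by ring
          rw [e, abs_mul, abs_of_nonneg (by omega)]
          have := mul_le_mul_of_nonneg_left hd1.1 (show 0 ≤ (t' : ℤ) - s' by omega)
          omega
        · rw [hx]
          simp only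
          have e : w.2 - (s' : ℤ) * d.2 - (w.2 - (t' : ℤ) * d.2) = ((t' : ℤ) - s') * d.2 := by ring
          rw [e, abs_mul, abs_of_nonneg (by omega)]
          have := mul_le_mul_of_nonneg_left hd1.2 (show 0 ≤ (t' : ℤ) - s' by omega)
          omega
      · exact inQ_of (by simp) (by simp)) S (by omega)
    have e1 : h S = Hv (x S) := by rw [hh]; simp
    have e2 : h 64 = Hv (x 64) := by
      rw [hh]; simp only
      rw [min_eq_left (by omega)]
    rw [e1, e2] at key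
    have k2 := hsum 64 (by omega)
    have e : Hv (ctc n q) - Hv w = (Hv (x S) - Hv (x 64)) + (Hv (x 64) - Hv (x 0)) := by
      rw [hxS, hx0]; ring
    rw [e]
    refine (norm_add_le _ _).trans ?_
    have h3 : (S : ℝ) ^ (2 / 3 : ℝ) ≤ (n : ℝ) ^ (2 / 3 : ℝ) :=
      Real.rpow_le_rpow (by positivity) (by exact_mod_cast (by omega : (S : ℤ) ≤ n)) (by norm_num)
    have h4 : 32 * R * (S : ℝ) ^ (2 / 3 : ℝ) ≤ 32 * R * (n : ℝ) ^ (2 / 3 : ℝ) :=
      mul_le_mul_of_nonneg_left h3 (by positivity)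
    have h5 : 0 ≤ R * (n : ℝ) ^ (2 / 3 : ℝ) := by positivity
    push_cast at k2
    nlinarith

theorem side0_ok : SIDE0 :=
  ⟨128, by norm_num, fun _ _ _ W _ _ _ _ hn hnN hX hH hq hd =>
    side0 hn hnN ⟨W, hX.toPlaneEnv⟩ hH hq hd⟩

end Pool.Agent.H30.Cell
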