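import Mathlib
import Pool.Agent.H77.Q1.K3e

set_option autoImplicit false
open Finset

/-! **Cells and ties, part 1**: tile paths. Two labels are adjacent (`TA`) if they share a vertex and a
face, i.e. differ by `(±1, ±1)`. In a tile-connected set `A` of labels which is not contained in the
random labels `E`, all random labels can be coloured such that the open ones are tied to the wired
labels and the closed ones to the closed walls, inside `A`. -/

namespace Pool.Agent.H30.Cell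

open Pool.Agent.H75.Perc Pool.Agent.H75.TwoArm Pool.Agent.H75.Four Pool.Agent.H77.Q1
open Pool.Agent.H75.TwoArm.StrandAux hiding vx_nxC

/-- the labels `l`, `m` share a vertex and a face -/
def TA (l m : ℤ × ℤ) : Prop := (m.1 = l.1 + 1 ∨ m.1 = l.1 - 1) ∧ (m.2 = l.2 + 1 ∨ m.2 = l.2 - 1)

lemma TA.symm {l m : ℤ × ℤ} (h : TA l m) : TA m l := by unfold TA at h ⊢; omega

/-- `v` is an end of `l` -/
def En (l v : ℤ × ℤ) : Prop := v = eu l ∨ v = ev l

/-- `g` is a face of `l` -/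
def Fa (l g : ℤ × ℤ) : Prop := ∃ g', IsUnit4 (g' - g) ∧ lbf g g' = l

lemma en_iff {l v : ℤ × ℤ} (hl : (l.1 + l.2) % 2 = 1) : En l v ↔
    (((2 * v.1 = l.1 + 1 ∨ 2 * v.1 = l.1 - 1) ∧ 2 * v.2 = l.2) ∨
      (2 * v.1 = l.1 ∧ (2 * v.2 = l.2 + 1 ∨ 2 * v.2 = l.2 - 1))) := by
  unfold En eu ev
  rw [Prod.ext_iff, Prod.ext_iff]
  simp only
  omega

lemma TA.vertex {l m : ℤ × ℤ} (hl : (l.1 + l.2) % 2 = 1) (h : TA l m) : ∃ v, En l v ∧ En m v := by
  have hm : (m.1 + m.2) % 2 = 1 := by unfold TA at h; omega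
  unfold TA at h
  rcases Int.emod_two_eq_zero_or_one l.1 with h1 | h1
  · refine ⟨(l.1 / 2, m.2 / 2), (en_iff hl).2 ?_, (en_iff hm).2 ?_⟩ <;> simp only <;> omega
  · refine ⟨(m.1 / 2, l.2 / 2), (en_iff hl).2 ?_, (en_iff hm).2 ?_⟩ <;> simp only <;> omega

lemma fa_iff {l g : ℤ × ℤ} (hl : (l.1 + l.2) % 2 = 1) : Fa l g ↔
    (((2 * g.1 - 1 = l.1 + 1 ∨ 2 * g.1 - 1 = l.1 - 1) ∧ 2 * g.2 - 1 = l.2) ∨
      (2 * g.1 - 1 = l.1 ∧ (2 * g.2 - 1 = l.2 + 1 ∨ 2 * g.2 - 1 = l.2 - 1))) := by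
  constructor
  · rintro ⟨g', h1, h2⟩
    have h3 := unit_cases h1
    unfold lbf at h2
    have h4 := congrArg Prod.fst h2
    have h5 := congrArg Prod.snd h2
    simp only [Prod.fst_sub, Prod.snd_sub, Prod.fst_add, Prod.snd_add] at h4 h5
    omega
  · intro h
    refine ⟨(l.1 + 1 - g.1, l.2 + 1 - g.2), ?_, ?_⟩
    · unfold IsUnit4
      simp only [Prod.ext_iff, Prod.fst_sub, Prod.snd_sub]
      omega
    · unfold lbf
      refine Prod.ext ?_ ?_ <;>
      simp only [Prod.fst_sub, Prod.snd_sub, Prod.fst_add, Prod.snd_add] <;> omega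

lemma TA.face {l m : ℤ × ℤ} (hl : (l.1 + l.2) % 2 = 1) (h : TA l m) : ∃ g, Fa l g ∧ Fa m g := by
  have hm : (m.1 + m.2) % 2 = 1 := by unfold TA at h; omega
  unfold TA at h
  rcases Int.emod_two_eq_zero_or_one l.1 with h1 | h1
  · refine ⟨((m.1 + 1) / 2, (l.2 + 1) / 2), (fa_iff hl).2 ?_, (fa_iff hm).2 ?_⟩ <;>
    simp only <;> omega
  · refine ⟨((l.1 + 1) / 2, (m.2 + 1) / 2), (fa_iff hl).2 ?_, (fa_iff hm).2 ?_⟩ <;>
    simp only <;> omega

/-- the ends of an open label are joined -/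
lemma En.co {ω : Finset (ℤ × ℤ)} {l u v : ℤ × ℤ} (hl : (l.1 + l.2) % 2 = 1) (h : l ∈ ω)
    (hu : En l u) (hv : En l v) : Co ω u v := by
  have h1 := PivAux.eu_ev hl
  have h2 : Co ω (eu l) (ev l) := Relation.ReflTransGen.single ⟨h1.1, by rw [h1.2]; exact h⟩
  rcases hu with rfl | rfl <;> rcases hv with rfl | rfl
  · exact Co.refl _ _
  · exact h2
  · exact h2.symm
  · exact Co.refl _ _

/-- the faces of a closed label are joined -/
lemma Fa.co {B ω : Finset (ℤ × ℤ)} {l g f : ℤ × ℤ} (h : l ∈ B) (h' : l ∉ ω)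
    (hg : Fa l g) (hf : Fa l f) : Co (du B ω) g f := by
  obtain ⟨g', h1, h2⟩ := hg
  obtain ⟨f', h3, h4⟩ := hf
  have h5 : Co (du B ω) g g' := Relation.ReflTransGen.single
    (H77.Q1.ad_du.2 ⟨h1, by rw [h2]; exact h, by rw [h2]; exact h'⟩)
  rcases faces_unique h3 h1 (h4.trans h2.symm) with rfl | rfl
  · exact Co.refl _ _
  · exact h5

/-- ties of all ends of the labels of `O` to `t` -/
def TieO (O W : Finset (ℤ × ℤ)) (t : ℤ × ℤ) : Prop := ∀ o ∈ O, ∀ v, En o v → Co (O ∪ W) v t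

/-- ties of all faces of the labels of `C` to `f` -/
def TieC (M : ℤ) (E W C : Finset (ℤ × ℤ)) (f : ℤ × ℤ) : Prop :=
  ∀ o ∈ C, ∀ g, Fa o g → Co (du (H75.TwoArm.BB M) ((E ∪ W) \ C)) g f

lemma crossing {α : Type*} {R : α → α → Prop} {P : α → Prop} {a b : α}
    (h : Relation.ReflTransGen R a b) (ha : P a) (hb : ¬ P b) : ∃ x y, R x y ∧ P x ∧ ¬ P y := by
  induction h with
  | refl => exact absurd ha hb
  | @tail b c _ hbc ih =>
    by_cases h1 : P b
    · exact ⟨b, c, hbc, h1, hb⟩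
    · exact ih h1

section
variable {M : ℤ} {E W : Finset (ℤ × ℤ)} {t f : ℤ × ℤ}

/-- The data of the walls: random labels `E` and wired labels `W` in the box, all wired labels are
joined to `t`, the faces of all closed walls to `f`. -/
structure Wal (M : ℤ) (E W : Finset (ℤ × ℤ)) (t f : ℤ × ℤ) : Prop where
  hE : E ⊆ H75.TwoArm.BB (M - 1)
  hW : W ⊆ H75.TwoArm.BB (M - 1)
  disj : Disjoint E W
  wired : ∀ w ∈ W, ∀ v, En w v → Co W v t
  free : ∀ l ∈ H75.TwoArm.BB M, l ∉ E → l ∉ W → ∀ g, Fa l g →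
    Co (du (H75.TwoArm.BB M) (E ∪ W)) g f

lemma Wal.odd (h : Wal M E W t f) {l : ℤ × ℤ} (hl : l ∈ E) : (l.1 + l.2) % 2 = 1 :=
  (mem_BB'.1 (h.hE hl)).2.2

lemma tieO_insert (h : Wal M E W t f) {O : Finset (ℤ × ℤ)} (hO : TieO O W t) {l m : ℤ × ℤ}
    (hl : l ∈ E) (hlm : TA l m) (hm : m ∈ O ∨ m ∈ W) : TieO (insert l O) W t := by
  have hlo := h.odd hl
  have hsub : O ∪ W ⊆ insert l O ∪ W := union_subset_union_left (subset_insert _ _)
  intro o ho v hv
  rw [mem_insert] at ho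
  rcases ho with rfl | ho
  · obtain ⟨v0, h1, h2⟩ := hlm.vertex hlo
    refine Co.trans (En.co hlo (mem_union_left _ (mem_insert_self _ _)) hv h1) ?_
    rcases hm with hm | hm
    · exact (hO m hm v0 h2).mono hsub
    · exact (h.wired m hm v0 h2).mono subset_union_right
  · exact (hO o ho v hv).mono hsub

lemma tieC_insert (h : Wal M E W t f) {C : Finset (ℤ × ℤ)} (hC : TieC M E W C f) {l m : ℤ × ℤ}
    (hl : l ∈ E) (hlm : TA l m) (hm : m ∈ C ∨ (m ∉ E ∧ m ∉ W)) :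
    TieC M E W (insert l C) f := by
  have hlo := h.odd hl
  have hlB := mem_BB'.1 (h.hE hl)
  have hsub : (E ∪ W) \ insert l C ⊆ (E ∪ W) \ C := sdiff_subset_sdiff subset_rfl (subset_insert _ _)
  intro o ho g hg
  rw [mem_insert] at ho
  rcases ho with rfl | ho
  · obtain ⟨g0, h1, h2⟩ := hlm.face hlo
    refine Co.trans (Fa.co (mem_BB'.2 (by omega)) (fun h3 => (mem_sdiff.1 h3).2
      (mem_insert_self _ _)) hg h1) ?_
    rcases hm with hm | hm
    · exact (hC m hm g0 h2).mono (Pool.Agent.H77.Q1.du_anti hsub)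
    · refine (h.free m ?_ hm.1 hm.2 g0 h2).mono (Pool.Agent.H77.Q1.du_anti sdiff_subset)
      unfold TA at hlm
      rw [mem_BB']
      omega
  · exact (hC o ho g hg).mono (Pool.Agent.H77.Q1.du_anti hsub)

/-- **Colouring lemma.** -/
theorem exists_col (h : Wal M E W t f) (A : Finset (ℤ × ℤ))
    (hA : ∀ l ∈ A, ∀ m ∈ A, Relation.ReflTransGen (fun a b => TA a b ∧ b ∈ A) l m)
    (hAE : ¬ A ⊆ E) : ∃ O C : Finset (ℤ × ℤ), O ∪ C = A ∩ E ∧ Disjoint O C ∧ TieO O W t ∧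
      TieC M E W C f := by
  classical
  set Z : Finset (Finset (ℤ × ℤ) × Finset (ℤ × ℤ)) :=
    ((A ∩ E).powerset ×ˢ (A ∩ E).powerset).filter (fun p => Disjoint p.1 p.2 ∧ TieO p.1 W t ∧
      TieC M E W p.2 f) with hZ
  have hne : Z.Nonempty := by
    refine ⟨(∅, ∅), mem_filter.2 ⟨mem_product.2 ⟨mem_powerset.2 (empty_subset _),
      mem_powerset.2 (empty_subset _)⟩, disjoint_empty_left _, ?_, ?_⟩⟩
    · intro o ho
      exact absurd ho (notMem_empty _)
    · intro o ho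
      exact absurd ho (notMem_empty _)
  obtain ⟨⟨O, C⟩, hm, hmax⟩ := exists_max_image Z (fun p => p.1.card + p.2.card) hne
  rw [hZ, mem_filter, mem_product, mem_powerset, mem_powerset] at hm
  obtain ⟨⟨hO, hC⟩, hd, hTO, hTC⟩ := hm
  simp only at hO hC hd hTO hTC
  refine ⟨O, C, ?_, hd, hTO, hTC⟩
  refine subset_antisymm (union_subset hO hC) ?_
  intro l hl
  by_contra hlO
  obtain ⟨m, hmA, hmE⟩ : ∃ m ∈ A, m ∉ E := by
    by_contra h1
    push Not at h1
    exact hAE h1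
  obtain ⟨x, y, ⟨hxy, hyA⟩, ⟨hxAE, hxO⟩, hy⟩ := crossing (P := fun x => x ∈ A ∩ E ∧ x ∉ O ∪ C)
    (hA l (mem_inter.1 hl).1 m hmA) ⟨hl, hlO⟩ (fun h1 => hmE (mem_inter.1 h1.1).2)
  have hxE := (mem_inter.1 hxAE).2
  rw [mem_union, not_or] at hxO
  have hy' : (y ∈ O ∨ y ∈ W) ∨ (y ∈ C ∨ (y ∉ E ∧ y ∉ W)) := by
    rw [not_and, not_not, mem_union] at hy
    by_cases h1 : y ∈ E
    · rcases hy (mem_inter.2 ⟨hyA, h1⟩) with h2 | h2
      · exact Or.inl (Or.inl h2)
      · exact Or.inr (Or.inl h2)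
    · by_cases h2 : y ∈ W
      · exact Or.inl (Or.inr h2)
      · exact Or.inr (Or.inr ⟨h1, h2⟩)
  rcases hy' with hy' | hy'
  · have h1 := hmax (insert x O, C) (by
      rw [hZ, mem_filter, mem_product, mem_powerset, mem_powerset]
      refine ⟨⟨?_, hC⟩, ?_, tieO_insert h hTO hxE hxy hy', hTC⟩
      · intro z hz
        rcases mem_insert.1 hz with rfl | hz
        · exact hxAE
        · exact hO hz
      · exact disjoint_insert_left.2 ⟨hxO.2, hd⟩)
    simp only [card_insert_of_notMem hxO.1] at h1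
    omega
  · have h1 := hmax (O, insert x C) (by
      rw [hZ, mem_filter, mem_product, mem_powerset, mem_powerset]
      refine ⟨⟨hO, ?_⟩, ?_, hTO, tieC_insert h hTC hxE hxy hy'⟩
      · intro z hz
        rcases mem_insert.1 hz with rfl | hz
        · exact hxAE
        · exact hC hz
      · exact disjoint_insert_right.2 ⟨hxO.1, hd⟩)
    simp only [card_insert_of_notMem hxO.2] at h1
    omega

end

end Pool.Agent.H30.Cell
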