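import Mathlib
import Pool.Agent.H30.Cell.Tile
import Pool.Agent.Q1.M3.Defs

set_option autoImplicit false
open Finset

/-! **Cells and ties, part 2.** The cell of a vertex is `cv n v = (v.1 / n, v.2 / n)`, the cell of a
label is the cell of its lower end. `lq n q` are the labels of the cell `q`. A cell is free if its
labels and the labels of its four neighbours are random, `Fc` is the connected component of the free
cells. The cells next to `Fc` are random, not free, and can be solidly coloured. -/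

namespace Pool.Agent.H30.Cell

open Pool.Agent.H75.Perc Pool.Agent.H75.TwoArm Pool.Agent.H75.Four Pool.Agent.H77.Q1
open Pool.Agent.H75.TwoArm.StrandAux hiding vx_nxC
open Pool.Agent.Q1.M3 (star kap mem_star_iff mem_kap_iff)

/-- the cell of a vertex -/
def cv (n : ℤ) (v : ℤ × ℤ) : ℤ × ℤ := (v.1 / n, v.2 / n)

/-- the cell of a label -/
def ce (n : ℤ) (l : ℤ × ℤ) : ℤ × ℤ := cv n (eu l)

/-- the labels of a cell -/
noncomputable def lq (n : ℤ) (q : ℤ × ℤ) : Finset (ℤ × ℤ) :=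
  ((Ico (2 * (n * q.1)) (2 * (n * q.1) + 2 * n)) ×ˢ
    (Ico (2 * (n * q.2)) (2 * (n * q.2) + 2 * n))).filter (fun l => (l.1 + l.2) % 2 = 1)

lemma mem_lq' {n : ℤ} {q l : ℤ × ℤ} : l ∈ lq n q ↔
    ((2 * (n * q.1) ≤ l.1 ∧ l.1 < 2 * (n * q.1) + 2 * n) ∧
      (2 * (n * q.2) ≤ l.2 ∧ l.2 < 2 * (n * q.2) + 2 * n)) ∧ (l.1 + l.2) % 2 = 1 := by
  unfold lq
  rw [mem_filter, mem_product, mem_Ico, mem_Ico]

lemma ediv_eq {n a b : ℤ} (hn : 1 ≤ n) : a / n = b ↔ n * b ≤ a ∧ a < n * b + n := by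
  constructor
  · rintro rfl
    have h1 := Int.mul_ediv_add_emod a n
    have h2 := Int.emod_nonneg a (by omega : n ≠ 0)
    have h3 := Int.emod_lt_of_pos a (by omega : 0 < n)
    omega
  · rintro ⟨h1, h2⟩
    have h3 := Int.mul_ediv_add_emod a n
    have h4 := Int.emod_nonneg a (by omega : n ≠ 0)
    have h5 := Int.emod_lt_of_pos a (by omega : 0 < n)
    by_contra h6
    rcases lt_or_gt_of_ne h6 with h7 | h7
    · have h8 : n * (a / n + 1) ≤ n * b := Int.mul_le_mul_of_nonneg_left (by omega) (by omega)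
      rw [mul_add, mul_one] at h8
      omega
    · have h8 : n * (b + 1) ≤ n * (a / n) := Int.mul_le_mul_of_nonneg_left (by omega) (by omega)
      rw [mul_add, mul_one] at h8
      omega

lemma cv_eq {n : ℤ} (hn : 1 ≤ n) {v q : ℤ × ℤ} : cv n v = q ↔
    (n * q.1 ≤ v.1 ∧ v.1 < n * q.1 + n) ∧ (n * q.2 ≤ v.2 ∧ v.2 < n * q.2 + n) := by
  unfold cv
  rw [Prod.ext_iff, ediv_eq hn, ediv_eq hn]

lemma mem_lq {n : ℤ} (hn : 1 ≤ n) {q l : ℤ × ℤ} : l ∈ lq n q ↔ ce n l = q ∧ (l.1 + l.2) % 2 = 1 := by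
  rw [mem_lq']
  unfold ce
  rw [cv_eq hn]
  unfold eu
  simp only
  omega

/-- a cell is tile-connected -/
lemma lq_conn {n : ℤ} (q : ℤ × ℤ) : ∀ l ∈ lq n q, ∀ m ∈ lq n q,
    Relation.ReflTransGen (fun a b => TA a b ∧ b ∈ lq n q) l m := by
  set R : ℤ × ℤ → ℤ × ℤ → Prop := fun a b => TA a b ∧ b ∈ lq n q with hR
  set b0 : ℤ × ℤ := (2 * (n * q.1), 2 * (n * q.2) + 1) with hb0
  have key : ∀ k : ℕ, ∀ l ∈ lq n q, 2 * (l.1 - 2 * (n * q.1)) + (l.2 - 2 * (n * q.2)) ≤ k →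
      Relation.ReflTransGen R l b0 ∧ Relation.ReflTransGen R b0 l := by
    intro k
    induction k with
    | zero =>
      intro l hl hk
      rw [mem_lq'] at hl
      exfalso
      omega
    | succ k ih =>
      intro l hl hk
      have hl' := mem_lq'.1 hl
      obtain ⟨x, y⟩ := l
      simp only at hl' hk
      by_cases h1 : 2 * (n * q.1) < x
      · -- step to the left
        obtain ⟨y', hy', hy2⟩ : ∃ y', (y' = y + 1 ∨ y' = y - 1) ∧ 2 * (n * q.2) ≤ y' ∧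
            y' < 2 * (n * q.2) + 2 * n := by
          by_cases h2 : 2 * (n * q.2) < y
          · exact ⟨y - 1, Or.inr rfl, by omega, by omega⟩
          · exact ⟨y + 1, Or.inl rfl, by omega, by omega⟩
        have hm : (x - 1, y') ∈ lq n q := mem_lq'.2 (by simp only; omega)
        obtain ⟨h3, h4⟩ := ih _ hm (by simp only; omega)
        refine ⟨Relation.ReflTransGen.head ⟨?_, hm⟩ h3, h4.tail ⟨?_, hl⟩⟩
        · unfold TA; dsimp only; omega
        · unfold TA; dsimp only; omega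
      · by_cases h2 : y = 2 * (n * q.2) + 1
        · have h3 : (x, y) = b0 := by rw [hb0]; exact Prod.ext (by simp only; omega) (by simp only; omega)
          rw [h3]
          exact ⟨Relation.ReflTransGen.refl, Relation.ReflTransGen.refl⟩
        · have hm : (x, y - 2) ∈ lq n q := mem_lq'.2 (by simp only; omega)
          have hm' : (x + 1, y - 1) ∈ lq n q := mem_lq'.2 (by simp only; omega)
          obtain ⟨h3, h4⟩ := ih _ hm (by simp only; omega)
          refine ⟨Relation.ReflTransGen.head (b := (x + 1, y - 1)) ⟨?_, hm'⟩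
            (Relation.ReflTransGen.head ⟨?_, hm⟩ h3), (h4.tail (b := (x, y - 2)) (c := (x + 1, y - 1))
              ⟨?_, hm'⟩).tail ⟨?_, hl⟩⟩
          all_goals unfold TA; dsimp only; omega
  intro l hl m hm
  have h1 := (key (2 * (l.1 - 2 * (n * q.1)) + (l.2 - 2 * (n * q.2))).toNat l hl
    (by omega)).1
  have h2 := (key (2 * (m.1 - 2 * (n * q.1)) + (m.2 - 2 * (n * q.2))).toNat m hm
    (by omega)).2
  exact h1.trans h2

/-- adjacent cells have adjacent labels -/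
lemma lq_adj {n : ℤ} (hn : 1 ≤ n) {q b : ℤ × ℤ} (h : IsUnit4 (b - q)) :
    ∃ l ∈ lq n q, ∃ m ∈ lq n b, TA l m := by
  have h1 := unit_cases h
  obtain ⟨i, j⟩ := q
  obtain ⟨i', j'⟩ := b
  simp only at h1
  have e : ∀ a : ℤ, n * (a + 1) = n * a + n := fun a => by ring
  have e' : ∀ a : ℤ, n * (a - 1) = n * a - n := fun a => by ring
  rcases h1 with ⟨h1, h2⟩ | ⟨h1, h2⟩ | ⟨h1, h2⟩ | ⟨h1, h2⟩
  all_goals first
    | (have h3 : i' = i + 1 := by omega
       have h4 : j' = j := by omega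
       subst h3 h4
       refine ⟨(2 * (n * i) + 2 * n - 1, 2 * (n * j')), mem_lq'.2 ?_,
         (2 * (n * i) + 2 * n, 2 * (n * j') + 1), mem_lq'.2 ?_, ?_⟩
       · simp only; omega
       · simp only [e]; omega
       · unfold TA; dsimp only; omega)
    | (have h3 : i' = i - 1 := by omega
       have h4 : j' = j := by omega
       subst h3 h4
       refine ⟨(2 * (n * i), 2 * (n * j') + 1), mem_lq'.2 ?_,
         (2 * (n * i) - 1, 2 * (n * j')), mem_lq'.2 ?_, ?_⟩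
       · simp only; omega
       · simp only [e']; omega
       · unfold TA; dsimp only; omega)
    | (have h3 : i' = i := by omega
       have h4 : j' = j + 1 := by omega
       subst h3 h4
       refine ⟨(2 * (n * i'), 2 * (n * j) + 2 * n - 1), mem_lq'.2 ?_,
         (2 * (n * i') + 1, 2 * (n * j) + 2 * n), mem_lq'.2 ?_, ?_⟩
       · simp only; omega
       · simp only [e]; omega
       · unfold TA; dsimp only; omega)
    | (have h3 : i' = i := by omega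
       have h4 : j' = j - 1 := by omega
       subst h3 h4
       refine ⟨(2 * (n * i') + 1, 2 * (n * j)), mem_lq'.2 ?_,
         (2 * (n * i'), 2 * (n * j) - 1), mem_lq'.2 ?_, ?_⟩
       · simp only; omega
       · simp only [e']; omega
       · unfold TA; dsimp only; omega)

/-- all labels of the cell are random -/
def Gd (n : ℤ) (E : Finset (ℤ × ℤ)) (q : ℤ × ℤ) : Prop := lq n q ⊆ E

/-- free cell -/
def Free (n : ℤ) (E : Finset (ℤ × ℤ)) (q : ℤ × ℤ) : Prop :=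
  Gd n E q ∧ ∀ b, IsUnit4 (b - q) → Gd n E b

open scoped Classical in
/-- the free cells -/
noncomputable def FF (n : ℤ) (E : Finset (ℤ × ℤ)) : Finset (ℤ × ℤ) := (E.image (ce n)).filter (Free n E)

lemma mem_FF {n : ℤ} (hn : 1 ≤ n) {E : Finset (ℤ × ℤ)} {q : ℤ × ℤ} : q ∈ FF n E ↔ Free n E q := by
  unfold FF
  simp only [mem_filter]
  refine ⟨fun h => h.2, fun h => ⟨?_, h⟩⟩
  have h1 : (2 * (n * q.1), 2 * (n * q.2) + 1) ∈ lq n q := mem_lq'.2 (by simp only; omega)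
  exact mem_image.2 ⟨_, h.1 h1, ((mem_lq hn).1 h1).1⟩

open scoped Classical in
/-- the component of `q0` of the free cells -/
noncomputable def Fc (n : ℤ) (E : Finset (ℤ × ℤ)) (q0 : ℤ × ℤ) : Finset (ℤ × ℤ) :=
  (FF n E).filter (fun q => Co (kap (FF n E)) q0 q)

section
variable {n : ℤ} {E : Finset (ℤ × ℤ)} {q0 : ℤ × ℤ}

lemma mem_Fc {q : ℤ × ℤ} : q ∈ Fc n E q0 ↔ q ∈ FF n E ∧ Co (kap (FF n E)) q0 q := by
  unfold Fc
  simp only [mem_filter]

lemma Fc.free (hn : 1 ≤ n) {p : ℤ × ℤ} (h : p ∈ Fc n E q0) : Free n E p :=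
  (mem_FF hn).1 (mem_Fc.1 h).1

lemma ad_kap {K : Finset (ℤ × ℤ)} {p q : ℤ × ℤ} : Ad (kap K) p q ↔ IsUnit4 (q - p) ∧ p ∈ K ∧ q ∈ K := by
  unfold Ad
  constructor
  · rintro ⟨h1, h2⟩
    refine ⟨h1, ?_⟩
    have ho : ((p + q).1 + (p + q).2) % 2 = 1 := by
      have := unit_cases h1
      simp only [Prod.fst_add, Prod.snd_add]
      omega
    rw [mem_kap_iff ho] at h2
    rcases H69.Q1.ends_of_add h1 rfl with ⟨h3, h4⟩ | ⟨h3, h4⟩
    · exact ⟨h3.symm ▸ h2.1, h4.symm ▸ h2.2⟩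
    · exact ⟨h3.symm ▸ h2.2, h4.symm ▸ h2.1⟩
  · rintro ⟨h1, h2, h3⟩
    refine ⟨h1, ?_⟩
    have ho : ((p + q).1 + (p + q).2) % 2 = 1 := by
      have := unit_cases h1
      simp only [Prod.fst_add, Prod.snd_add]
      omega
    rw [mem_kap_iff ho]
    rcases H69.Q1.ends_of_add h1 rfl with ⟨h4, h5⟩ | ⟨h4, h5⟩
    · exact ⟨h4 ▸ h2, h5 ▸ h3⟩
    · exact ⟨h5 ▸ h3, h4 ▸ h2⟩

lemma Fc.step (hn : 1 ≤ n) {p q : ℤ × ℤ} (h : p ∈ Fc n E q0) (hpq : IsUnit4 (q - p))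
    (hq : Free n E q) : q ∈ Fc n E q0 := by
  rw [mem_Fc] at h ⊢
  have h1 := (mem_FF hn).2 hq
  exact ⟨h1, h.2.tail (ad_kap.2 ⟨hpq, h.1, h1⟩)⟩

lemma Fc.self (hn : 1 ≤ n) (h : Free n E q0) : q0 ∈ Fc n E q0 :=
  mem_Fc.2 ⟨(mem_FF hn).2 h, Co.refl _ _⟩

/-- `Fc` is connected -/
lemma Fc.conn0 {p : ℤ × ℤ} (h : p ∈ Fc n E q0) :
    Co (kap (Fc n E q0)) q0 p := by
  have h1 := (mem_Fc.1 h).2
  induction h1 with
  | refl => exact Co.refl _ _
  | @tail b c hb hbc ih =>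
    have h2 := ad_kap.1 hbc
    have h3 : b ∈ Fc n E q0 := mem_Fc.2 ⟨h2.2.1, hb⟩
    exact (ih h3).tail (ad_kap.2 ⟨h2.1, h3, h⟩)

lemma Fc.conn : ∀ p ∈ Fc n E q0, ∀ q ∈ Fc n E q0,
    Co (kap (Fc n E q0)) p q := fun _ hp _ hq =>
  (Fc.conn0 hp).symm.trans (Fc.conn0 hq)

/-- boundary cells -/
def Bd (n : ℤ) (E : Finset (ℤ × ℤ)) (q0 q : ℤ × ℤ) : Prop :=
  q ∉ Fc n E q0 ∧ ∃ p ∈ Fc n E q0, IsUnit4 (q - p)

lemma Bd.gd (hn : 1 ≤ n) {q : ℤ × ℤ} (h : Bd n E q0 q) : Gd n E q := by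
  obtain ⟨-, p, hp, hpq⟩ := h
  exact (Fc.free hn hp).2 q hpq

lemma Bd.bad (hn : 1 ≤ n) {q : ℤ × ℤ} (h : Bd n E q0 q) : ∃ b, IsUnit4 (b - q) ∧ ¬ Gd n E b := by
  by_contra h1
  push Not at h1
  obtain ⟨h2, p, hp, hpq⟩ := h
  exact h2 (Fc.step hn hp hpq ⟨(Fc.free hn hp).2 q hpq, h1⟩)

lemma not_gd_notMem (hn : 1 ≤ n) {b : ℤ × ℤ} (h : ¬ Gd n E b) : b ∉ Fc n E q0 := fun h1 =>
  h (Fc.free hn h1).1

end

end Pool.Agent.H30.Cell
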