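import Mathlib
import Pool.Agent.H30.Cell.Cells

set_option autoImplicit false
open Finset

/-! **Cells and ties, part 3**: solid colours of the boundary cells. For every finite set `S` of boundary
cells there are disjoint sets `O`, `C` of random labels (opened, closed), contained in the cells of `S`
and in bad cells next to them, such that every cell of `S` is solidly open or solidly closed and all
labels of `O`, `C` are tied to the wired labels, resp. to the closed walls, within distance `2 n + 1`. -/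

namespace Pool.Agent.H30.Cell

open Pool.Agent.H75.Perc Pool.Agent.H75.TwoArm Pool.Agent.H75.Four Pool.Agent.H77.Q1
open Pool.Agent.H75.TwoArm.StrandAux hiding vx_nxC
open Pool.Agent.Q1.M3 (star kap mem_star_iff mem_kap_iff)

section
variable {n M : ℤ} {E W : Finset (ℤ × ℤ)} {q0 t f : ℤ × ℤ}

/-- Colours of a bad cell. -/
lemma bad_col (h : Wal M E W t f) (b : ℤ × ℤ) : ∃ O C : Finset (ℤ × ℤ), ¬ Gd n E b →
    O ∪ C = lq n b ∩ E ∧ Disjoint O C ∧ TieO O W t ∧ TieC M E W C f := by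
  by_cases hb : Gd n E b
  · exact ⟨∅, ∅, fun h1 => absurd hb h1⟩
  · obtain ⟨O, C, h1⟩ := exists_col h (lq n b) (lq_conn b) hb
    exact ⟨O, C, fun _ => h1⟩

/-- adding a whole cell to the open colour -/
lemma tieO_cell (h : Wal M E W t f) {O : Finset (ℤ × ℤ)} (hO : TieO O W t) {q : ℤ × ℤ}
    (hq : lq n q ⊆ E) {l m : ℤ × ℤ} (hl : l ∈ lq n q) (hlm : TA l m) (hm : m ∈ O ∨ m ∈ W) :
    TieO (O ∪ lq n q) W t := by
  have h1 := tieO_insert h hO (hq hl) hlm hm
  have hl2 : Co (O ∪ lq n q ∪ W) (eu l) t := (h1 l (mem_insert_self _ _) _ (Or.inl rfl)).mono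
    (union_subset_union_left (insert_subset (mem_union_right _ hl) subset_union_left))
  have key : ∀ x ∈ lq n q, ∀ v, En x v → Co (O ∪ lq n q ∪ W) v t := by
    intro x hx
    have h2 := lq_conn q l hl x hx
    have h3 : l ∈ lq n q → ∀ v, En l v → Co (O ∪ lq n q ∪ W) v t := fun _ v hv =>
      (En.co (h.odd (hq hl)) (mem_union_left _ (mem_union_right _ hl)) hv (Or.inl rfl)).trans hl2
    clear hx
    induction h2 with
    | refl => exact h3 hl
    | @tail a b hab hbc ih =>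
      intro v hv
      have ha : a ∈ lq n q := by
        rcases Relation.ReflTransGen.cases_tail hab with h4 | ⟨c, -, h4⟩
        · exact h4 ▸ hl
        · exact h4.2
      obtain ⟨v0, h5, h6⟩ := hbc.1.vertex (h.odd (hq ha))
      exact (En.co (h.odd (hq hbc.2)) (mem_union_left _ (mem_union_right _ hbc.2)) hv h6).trans
        (ih v0 h5)
  intro o ho v hv
  rcases mem_union.1 ho with ho | ho
  · exact (hO o ho v hv).mono (union_subset_union_left subset_union_left)
  · exact key o ho v hv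

/-- adding a whole cell to the closed colour -/
lemma tieC_cell (h : Wal M E W t f) {C : Finset (ℤ × ℤ)} (hC : TieC M E W C f) {q : ℤ × ℤ}
    (hq : lq n q ⊆ E) {l m : ℤ × ℤ} (hl : l ∈ lq n q) (hlm : TA l m)
    (hm : m ∈ C ∨ (m ∉ E ∧ m ∉ W)) : TieC M E W (C ∪ lq n q) f := by
  have h1 := tieC_insert h hC (hq hl) hlm hm
  have hBB : ∀ x ∈ lq n q, x ∈ H75.TwoArm.BB M := by
    intro x hx
    have := mem_BB'.1 (h.hE (hq hx))
    rw [mem_BB']
    omega
  have hno : ∀ x ∈ lq n q, x ∉ (E ∪ W) \ (C ∪ lq n q) := fun x hx h2 =>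
    (mem_sdiff.1 h2).2 (mem_union_right _ hx)
  have hsub : (E ∪ W) \ (C ∪ lq n q) ⊆ (E ∪ W) \ insert l C := sdiff_subset_sdiff subset_rfl
    (insert_subset (mem_union_right _ hl) subset_union_left)
  have h3 : ∀ g, Fa l g → Co (du (H75.TwoArm.BB M) ((E ∪ W) \ (C ∪ lq n q))) g f := fun g hg =>
    (h1 l (mem_insert_self _ _) g hg).mono (Pool.Agent.H77.Q1.du_anti hsub)
  have key : ∀ x ∈ lq n q, ∀ g, Fa x g →
      Co (du (H75.TwoArm.BB M) ((E ∪ W) \ (C ∪ lq n q))) g f := by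
    intro x hx
    have h2 := lq_conn q l hl x hx
    clear hx
    induction h2 with
    | refl => exact h3
    | @tail a b hab hbc ih =>
      intro g hg
      have ha : a ∈ lq n q := by
        rcases Relation.ReflTransGen.cases_tail hab with h4 | ⟨c, -, h4⟩
        · exact h4 ▸ hl
        · exact h4.2
      obtain ⟨g0, h5, h6⟩ := hbc.1.face (h.odd (hq ha))
      exact (Fa.co (hBB _ hbc.2) (hno _ hbc.2) hg h6).trans (ih g0 h5)
  intro o ho g hg
  rcases mem_union.1 ho with ho | ho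
  · exact (hC o ho g hg).mono (Pool.Agent.H77.Q1.du_anti
      (sdiff_subset_sdiff subset_rfl subset_union_left))
  · exact key o ho g hg

/-- the labels of two cells next to each other are near -/
lemma near_lq {q b l m : ℤ × ℤ} (hqb : IsUnit4 (b - q)) (hl : l ∈ lq n q ∪ lq n b)
    (hm : m ∈ lq n q ∪ lq n b) : |m.1 - l.1| ≤ 4 * n - 1 ∧ |m.2 - l.2| ≤ 4 * n - 1 := by
  have h1 := unit_cases hqb
  obtain ⟨i, j⟩ := q
  obtain ⟨i', j'⟩ := b
  simp only at h1
  rw [mem_union, mem_lq', mem_lq'] at hl hm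
  simp only at hl hm
  rw [abs_le, abs_le]
  have e : ∀ a : ℤ, n * (a + 1) = n * a + n := fun a => by ring
  rcases h1 with ⟨h1, h2⟩ | ⟨h1, h2⟩ | ⟨h1, h2⟩ | ⟨h1, h2⟩
  all_goals first
    | (have h3 : i' = i + 1 := by omega
       have h4 : j' = j := by omega
       subst h3 h4
       rw [e] at hl hm
       omega)
    | (have h3 : i = i' + 1 := by omega
       have h4 : j' = j := by omega
       subst h3 h4
       rw [e] at hl hm
       omega)
    | (have h3 : i' = i := by omega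
       have h4 : j' = j + 1 := by omega
       subst h3 h4
       rw [e] at hl hm
       omega)
    | (have h3 : i' = i := by omega
       have h4 : j = j' + 1 := by omega
       subst h3 h4
       rw [e] at hl hm
       omega)

lemma lq_disj {q q' l : ℤ × ℤ} (hn : 1 ≤ n) (h : l ∈ lq n q) (h' : l ∈ lq n q') : q = q' :=
  ((mem_lq hn).1 h).1.symm.trans ((mem_lq hn).1 h').1

/-- a full cell with a neighbour which is not full -/
def Rim (n : ℤ) (E : Finset (ℤ × ℤ)) (q : ℤ × ℤ) : Prop :=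
  Gd n E q ∧ ∃ b, IsUnit4 (b - q) ∧ ¬ Gd n E b

lemma Bd.rim (hn : 1 ≤ n) {q : ℤ × ℤ} (h : Bd n E q0 q) : Rim n E q := ⟨h.gd hn, h.bad hn⟩

/-- **Cells and ties.** -/
theorem exists_cells (hn : 1 ≤ n) (h : Wal M E W t f) (S : Finset (ℤ × ℤ))
    (hS : ∀ q ∈ S, Rim n E q) : ∃ O C : Finset (ℤ × ℤ),
    O ⊆ E ∧ C ⊆ E ∧ Disjoint O C ∧
    (∀ q ∈ S, lq n q ⊆ O ∨ lq n q ⊆ C) ∧
    (∀ l ∈ O ∪ C, ∃ q ∈ S, ∃ b, IsUnit4 (b - q) ∧ ¬ Gd n E b ∧ l ∈ lq n q ∪ lq n b) ∧
    (∀ o ∈ O, ∀ v, (v = eu o ∨ v = ev o) → ∃ T, IsTie O W t (2 * n + 1) v T) ∧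
    (∀ o ∈ C, ∀ g g', IsUnit4 (g' - g) → lbf g g' = o →
      ∃ T, T ⊆ C ∧ (∀ m ∈ T, |m.1 + 1 - 2 * g.1| ≤ 2 * (2 * n + 1) - 2 ∧
        |m.2 + 1 - 2 * g.2| ≤ 2 * (2 * n + 1) - 2) ∧
        Co (du (H75.TwoArm.BB M) ((E ∪ W) \ T)) g f) := by
  classical
  choose Ob Cb hOC using bad_col (n := n) h
  -- the bad neighbour and the contact
  have hb : ∀ q, ∃ b l m, Rim n E q → IsUnit4 (b - q) ∧ ¬ Gd n E b ∧ l ∈ lq n q ∧ m ∈ lq n b ∧
      TA l m := by
    intro q
    by_cases hq : Rim n E q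
    · obtain ⟨b, h1, h2⟩ := hq.2
      obtain ⟨l, hl, m, hm, h3⟩ := lq_adj hn h1
      exact ⟨b, l, m, fun _ => ⟨h1, h2, hl, hm, h3⟩⟩
    · exact ⟨q, q, q, fun h1 => absurd h1 hq⟩
  choose bb ll mm hbb using hb
  set col : ℤ × ℤ → Prop := fun q => mm q ∈ W ∨ mm q ∈ Ob (bb q) with hcol
  set Oq : ℤ × ℤ → Finset (ℤ × ℤ) := fun q => Ob (bb q) ∪ if col q then lq n q else ∅ with hOq
  set Cq : ℤ × ℤ → Finset (ℤ × ℤ) := fun q => Cb (bb q) ∪ if col q then ∅ else lq n q with hCq
  have hE : ∀ b, ¬ Gd n E b → Ob b ⊆ lq n b ∩ E ∧ Cb b ⊆ lq n b ∩ E := by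
    intro b h1
    have h2 := (hOC b h1).1
    exact ⟨h2 ▸ subset_union_left, h2 ▸ subset_union_right⟩
  -- ties of the blocks
  have hTO : ∀ q ∈ S, TieO (Oq q) W t := by
    intro q hq
    obtain ⟨h1, h2, h3, h4, h5⟩ := hbb q (hS q hq)
    obtain ⟨-, -, h6, -⟩ := hOC _ h2
    simp only [hOq]
    split_ifs with h7
    · exact tieO_cell h h6 (hS q hq).1 h3 h5 (by rw [hcol] at h7; exact h7.symm)
    · rw [union_empty]; exact h6
  have hTC : ∀ q ∈ S, TieC M E W (Cq q) f := by
    intro q hq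
    obtain ⟨h1, h2, h3, h4, h5⟩ := hbb q (hS q hq)
    obtain ⟨h8, -, -, h6⟩ := hOC _ h2
    simp only [hCq]
    split_ifs with h7
    · rw [union_empty]; exact h6
    · refine tieC_cell h h6 (hS q hq).1 h3 h5 ?_
      rw [hcol, not_or] at h7
      by_cases h9 : mm q ∈ E
      · left
        have h10 : mm q ∈ Ob (bb q) ∪ Cb (bb q) := by
          rw [h8]; exact mem_inter.2 ⟨h4, h9⟩
        exact (mem_union.1 h10).resolve_left h7.2
      · exact Or.inr ⟨h9, h7.1⟩
  have hsubO : ∀ q ∈ S, Oq q ⊆ lq n q ∪ lq n (bb q) := by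
    intro q hq
    have h1 := (hE _ (hbb q (hS q hq)).2.1).1
    intro l hl
    simp only [hOq] at hl
    rw [mem_union] at hl ⊢
    rcases hl with hl | hl
    · exact Or.inr (mem_inter.1 (h1 hl)).1
    · split_ifs at hl
      · exact Or.inl hl
      · exact absurd hl (notMem_empty _)
  have hsubC : ∀ q ∈ S, Cq q ⊆ lq n q ∪ lq n (bb q) := by
    intro q hq
    have h1 := (hE _ (hbb q (hS q hq)).2.1).2
    intro l hl
    simp only [hCq] at hl
    rw [mem_union] at hl ⊢
    rcases hl with hl | hl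
    · exact Or.inr (mem_inter.1 (h1 hl)).1
    · split_ifs at hl
      · exact absurd hl (notMem_empty _)
      · exact Or.inl hl
  refine ⟨S.biUnion Oq, S.biUnion Cq, ?_, ?_, ?_, ?_, ?_, ?_, ?_⟩
  · intro l hl
    obtain ⟨q, hq, hl⟩ := mem_biUnion.1 hl
    simp only [hOq] at hl
    rw [mem_union] at hl
    rcases hl with hl | hl
    · exact (mem_inter.1 ((hE _ (hbb q (hS q hq)).2.1).1 hl)).2
    · split_ifs at hl
      · exact (hS q hq).1 hl
      · exact absurd hl (notMem_empty _)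
  · intro l hl
    obtain ⟨q, hq, hl⟩ := mem_biUnion.1 hl
    simp only [hCq] at hl
    rw [mem_union] at hl
    rcases hl with hl | hl
    · exact (mem_inter.1 ((hE _ (hbb q (hS q hq)).2.1).2 hl)).2
    · split_ifs at hl
      · exact absurd hl (notMem_empty _)
      · exact (hS q hq).1 hl
  · rw [disjoint_left]
    intro l hl hl'
    obtain ⟨q, hq, hl⟩ := mem_biUnion.1 hl
    obtain ⟨q', hq', hl'⟩ := mem_biUnion.1 hl'
    obtain ⟨-, hb2, -⟩ := hbb q (hS q hq)
    obtain ⟨-, hb2', -⟩ := hbb q' (hS q' hq')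
    simp only [hOq] at hl
    simp only [hCq] at hl'
    rw [mem_union] at hl hl'
    rcases hl with hl | hl <;> rcases hl' with hl' | hl'
    · have h1 := (mem_inter.1 ((hE _ hb2).1 hl)).1
      have h2 := (mem_inter.1 ((hE _ hb2').2 hl')).1
      have h3 := lq_disj hn h1 h2
      rw [← h3] at hl'
      exact disjoint_left.1 (hOC _ hb2).2.1 hl hl'
    · have h1 := (mem_inter.1 ((hE _ hb2).1 hl)).1
      split_ifs at hl' with h5
      · exact absurd hl' (notMem_empty _)
      · have h3 := lq_disj hn h1 hl'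
        rw [h3] at hb2
        exact hb2 (hS q' hq').1
    · have h1 := (mem_inter.1 ((hE _ hb2').2 hl')).1
      split_ifs at hl with h5
      · have h3 := lq_disj hn h1 hl
        rw [h3] at hb2'
        exact hb2' (hS q hq).1
      · exact absurd hl (notMem_empty _)
    · split_ifs at hl with h5
      · split_ifs at hl' with h6
        · exact absurd hl' (notMem_empty _)
        · have h3 := lq_disj hn hl hl'
          subst h3
          exact h6 h5
      · exact absurd hl (notMem_empty _)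
  · intro q hq
    by_cases h1 : col q
    · left
      intro l hl
      refine mem_biUnion.2 ⟨q, hq, ?_⟩
      simp only [hOq]
      rw [if_pos h1]
      exact mem_union_right _ hl
    · right
      intro l hl
      refine mem_biUnion.2 ⟨q, hq, ?_⟩
      simp only [hCq]
      rw [if_neg h1]
      exact mem_union_right _ hl
  · intro l hl
    rcases mem_union.1 hl with hl | hl
    · obtain ⟨q, hq, hl⟩ := mem_biUnion.1 hl
      exact ⟨q, hq, bb q, (hbb q (hS q hq)).1, (hbb q (hS q hq)).2.1, hsubO q hq hl⟩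
    · obtain ⟨q, hq, hl⟩ := mem_biUnion.1 hl
      exact ⟨q, hq, bb q, (hbb q (hS q hq)).1, (hbb q (hS q hq)).2.1, hsubC q hq hl⟩
  · intro o ho v hv
    obtain ⟨q, hq, hoq⟩ := mem_biUnion.1 ho
    refine ⟨Oq q, fun l hl => mem_biUnion.2 ⟨q, hq, hl⟩, ?_, hTO q hq o hoq v hv⟩
    intro m hm
    have h1 := near_lq (hbb q (hS q hq)).1 (hsubO q hq hoq) (hsubO q hq hm)
    have ho2 : (o.1 + o.2) % 2 = 1 := by
      rcases mem_union.1 (hsubO q hq hoq) with h2 | h2 <;> exact ((mem_lq hn).1 h2).2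
    have h3 := (en_iff ho2).1 hv
    rw [abs_le, abs_le] at h1 ⊢
    omega
  · intro o ho g g' hg1 hg2
    obtain ⟨q, hq, hoq⟩ := mem_biUnion.1 ho
    refine ⟨Cq q, fun l hl => mem_biUnion.2 ⟨q, hq, hl⟩, ?_, hTC q hq o hoq g ⟨g', hg1, hg2⟩⟩
    intro m hm
    have h1 := near_lq (hbb q (hS q hq)).1 (hsubC q hq hoq) (hsubC q hq hm)
    have ho2 : (o.1 + o.2) % 2 = 1 := by
      rcases mem_union.1 (hsubC q hq hoq) with h2 | h2 <;> exact ((mem_lq hn).1 h2).2
    have h3 := (fa_iff ho2).1 ⟨g', hg1, hg2⟩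
    rw [abs_le, abs_le] at h1 ⊢
    omega

end

end Pool.Agent.H30.Cell
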