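import Mathlib
import Pool.Agent.H30.Cell.Ties
import Pool.Agent.H77.Q1.Cell0
import Pool.Agent.H23.Q1.FillDob

set_option autoImplicit false
open Finset

/-! **Cells and ties (D3), main statement.** In a rough Dobrushin environment `(E, W, ct)` with fresh tip
let `Sp` be any set of cells (the spot). All full cells outside `Sp` which have a neighbour that is not
full can be solidly coloured (`O` opened, `C` closed), with ties of length `2 n + 1 ≤ 4 n`; the new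
environment is again a rough Dobrushin environment. -/

namespace Pool.Agent.H30.Cell

open Pool.Agent.H75.Perc Pool.Agent.H75.TwoArm Pool.Agent.H75.Four Pool.Agent.H77.Q1
open Pool.Agent.H75.TwoArm.StrandAux hiding vx_nxC
open Pool.Agent.Q1 (DCo)
open Pool.Agent.Q1.M6c (Dobr)
open Pool.Agent.H23.Q1 (exists_corner dco_clamp cla_face BB_sub)

section
variable {n M : ℤ} {E W : Finset (ℤ × ℤ)} {ct : ℤ × ℤ}

lemma ce_eq_cel (n : ℤ) (l : ℤ × ℤ) : ce n l = cel n l := rfl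

lemma gd_iff (hn : 1 ≤ n) {q : ℤ × ℤ} : Gd n E q ↔ Full n E q := by
  unfold Gd Full
  constructor
  · intro h l h1 h2
    exact h ((mem_lq hn).2 ⟨h2, h1⟩)
  · intro h l hl
    have := (mem_lq hn).1 hl
    exact h l this.2 this.1

lemma en_corner {l v : ℤ × ℤ} (hl : (l.1 + l.2) % 2 = 1) (hv : En l v) :
    ∃ z, lab z = l ∧ vx z = v := by
  have h1 := opc_zu hl
  rcases hv with rfl | rfl
  · exact ⟨zu l, h1.2.2.1, h1.2.2.2.2.1⟩
  · exact ⟨zv l, h1.2.2.2.1, h1.2.2.2.2.2⟩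

/-- The walls of a rough Dobrushin environment with fresh tip. -/
theorem Wal.of_dobr (h : Dobr E W ct) (hE : E ⊆ H75.TwoArm.BB (M - 1))
    (hW : W ⊆ H75.TwoArm.BB (M - 1)) (hct : lab ct ∈ E) : Wal M E W (vx ct) (fi ct) := by
  have hM : 1 ≤ M := by
    have := mem_BB'.1 (hE hct)
    omega
  have hEW : E ∪ W ⊆ H75.TwoArm.BB (M - 1) := union_subset hE hW
  refine ⟨hE, hW, h.disj, ?_, ?_⟩
  · intro w hw v hv
    obtain ⟨z, hz, hz'⟩ := en_corner (h.oddW w hw) hv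
    have := h.wco z (by rw [hz]; exact hw)
    rw [hz'] at this
    exact this.symm
  · intro l hl h3 h4 g ⟨g', h2, hg⟩
    subst hg
    obtain ⟨z, hz, hz'⟩ := exists_corner h2
    have h5 := h.lco z (by rw [hz']; exact h3) (by rw [hz']; exact h4)
    rw [hz] at h5
    have h6 := dco_clamp hM hEW h5
    have h7 : Co (du (H75.TwoArm.BB M) (E ∪ W))
        (Pool.Agent.H23.Q1.cla M (fi ct)) (fi ct) := by
      refine cla_face hEW (fi_nxC ct).1 ?_
      rw [lbf_nxC]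
      exact BB_sub (by omega) (hE hct)
    exact ((h7.symm.trans h6).trans (cla_face hEW h2 hl)).symm

lemma corner_en (z : ℤ × ℤ) : En (lab z) (vx z) := by
  rcases ends_lab z with ⟨h, -⟩ | ⟨h, -⟩
  · exact Or.inl h
  · exact Or.inr h

lemma corner_fa (z : ℤ × ℤ) : Fa (lab z) (fi z) := ⟨fi (nxC z), (fi_nxC z).1, lbf_nxC z⟩

/-- Opening and closing tied labels keeps rough Dobrushin environments. -/
theorem dobr_ties (h : Dobr E W ct) {O C : Finset (ℤ × ℤ)} (hO : O ⊆ E) (hC : C ⊆ E)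
    (hd : Disjoint O C)
    (hTO : ∀ o ∈ O, ∀ v, (v = eu o ∨ v = ev o) → Co (O ∪ W) v (vx ct))
    (hTC : ∀ o ∈ C, ∀ g, Fa o g → Co (du (H75.TwoArm.BB M) ((E ∪ W) \ C)) g (fi ct)) :
    Dobr (E \ (O ∪ C)) (W ∪ O) ct := by
  have hu : (E \ (O ∪ C)) ∪ (W ∪ O) ⊆ (E ∪ W) \ C := by
    intro l hl
    rw [mem_sdiff, mem_union]
    rcases mem_union.1 hl with h1 | h1
    · rw [mem_sdiff, mem_union, not_or] at h1
      exact ⟨Or.inl h1.1, h1.2.2⟩
    · rcases mem_union.1 h1 with h2 | h2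
      · exact ⟨Or.inr h2, fun h3 => disjoint_left.1 h.disj (hC h3) h2⟩
      · exact ⟨Or.inl (hO h2), disjoint_left.1 hd h2⟩
  refine ⟨fun e he => h.odd e (mem_sdiff.1 he).1, ?_, ?_, fun h1 => h.root (mem_sdiff.1 h1).1, ?_, ?_⟩
  · intro e he
    rcases mem_union.1 he with h1 | h1
    · exact h.oddW e h1
    · exact h.odd e (hO h1)
  · rw [disjoint_left]
    intro l hl hl'
    rw [mem_sdiff, mem_union, not_or] at hl
    rcases mem_union.1 hl' with h1 | h1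
    · exact disjoint_left.1 h.disj hl.1 h1
    · exact hl.2.1 h1
  · intro z hz
    rcases mem_union.1 hz with h1 | h1
    · exact (h.wco z h1).mono subset_union_left
    · exact ((hTO _ h1 _ (corner_en z)).symm).mono (by rw [union_comm])
  · intro z hz hz'
    rw [mem_union, not_or] at hz'
    by_cases h1 : lab z ∈ C
    · exact (DCo.anti hu ⟨_, hTC _ h1 _ (corner_fa z)⟩).symm
    · have h2 : lab z ∉ E := fun h3 => hz (mem_sdiff.2 ⟨h3, by
        rw [mem_union, not_or]; exact ⟨hz'.2, h1⟩⟩)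
      exact (h.lco z h2 hz'.1).anti (hu.trans sdiff_subset)

open Classical in
/-- **D3: cells and ties.** -/
theorem cells (hn : 1 ≤ n) (h : Dobr E W ct) (hE : E ⊆ H75.TwoArm.BB (M - 1))
    (hW : W ⊆ H75.TwoArm.BB (M - 1)) (hct : lab ct ∈ E) (Sp : ℤ × ℤ → Prop) :
    ∃ O C : Finset (ℤ × ℤ), O ⊆ E ∧ C ⊆ E ∧ Disjoint O C ∧
      -- (a) the cells are solidly coloured
      (∀ q, Full n E q → (∃ b, IsUnit4 (b - q) ∧ ¬ Full n E b) → ¬ Sp q →
        (∀ l : ℤ × ℤ, (l.1 + l.2) % 2 = 1 → cel n l = q → l ∈ O) ∨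
        (∀ l : ℤ × ℤ, (l.1 + l.2) % 2 = 1 → cel n l = q → l ∈ C)) ∧
      -- (b) the coloured labels
      (∀ l ∈ O ∪ C, ∃ q b, Full n E q ∧ ¬ Sp q ∧ IsUnit4 (b - q) ∧ ¬ Full n E b ∧
        (cel n l = q ∨ cel n l = b)) ∧
      -- (c) ties
      (∀ o ∈ O, ∀ v, (v = eu o ∨ v = ev o) → ∃ T, IsTie O W (vx ct) (4 * n) v T) ∧
      (∀ o ∈ C, ∀ g g', IsUnit4 (g' - g) → lbf g g' = o →
        ∃ T, T ⊆ C ∧ (∀ m ∈ T, |m.1 + 1 - 2 * g.1| ≤ 2 * (4 * n) - 2 ∧
          |m.2 + 1 - 2 * g.2| ≤ 2 * (4 * n) - 2) ∧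
          Co (du (H75.TwoArm.BB M) ((E ∪ W) \ T)) g (fi ct)) ∧
      -- (d) the new environment
      Dobr (E \ (O ∪ C)) (W ∪ O) ct ∧
      -- (e) walls of the full cells of the new environment
      (∀ q, Full n (E \ (O ∪ C)) q → ¬ Sp q → ∀ b, IsUnit4 (b - q) →
        Full n (E \ (O ∪ C)) b ∨
        (∀ l : ℤ × ℤ, (l.1 + l.2) % 2 = 1 → cel n l = b → l ∈ W ∪ O) ∨
        (∀ l : ℤ × ℤ, (l.1 + l.2) % 2 = 1 → cel n l = b → l ∉ E \ (O ∪ C) ∧ l ∉ W ∪ O)) ∧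
      -- (f) full cells which are not coloured stay full
      (∀ q, Full n E q → (Sp q ∨ ∀ b, IsUnit4 (b - q) → Full n E b) →
        Full n (E \ (O ∪ C)) q) := by
  classical
  have hw := Wal.of_dobr h hE hW hct
  set S : Finset (ℤ × ℤ) := (E.image (ce n)).filter (fun q => Rim n E q ∧ ¬ Sp q) with hS
  have hmS : ∀ q, q ∈ S ↔ Rim n E q ∧ ¬ Sp q := by
    intro q
    rw [hS, mem_filter]
    refine ⟨fun h1 => h1.2, fun h1 => ⟨?_, h1⟩⟩
    have h2 : (2 * (n * q.1), 2 * (n * q.2) + 1) ∈ lq n q := mem_lq'.2 (by simp only; omega)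
    exact mem_image.2 ⟨_, h1.1.1 h2, ((mem_lq hn).1 h2).1⟩
  obtain ⟨O, C, h1, h2, h3, h4, h5, h6, h7⟩ := exists_cells hn hw S (fun q hq => ((hmS q).1 hq).1)
  have hb : ∀ l ∈ O ∪ C, ∃ q b, Full n E q ∧ ¬ Sp q ∧ IsUnit4 (b - q) ∧ ¬ Full n E b ∧
      (cel n l = q ∨ cel n l = b) := by
    intro l hl
    obtain ⟨q, hq, b, hqb, hb, hlb⟩ := h5 l hl
    have h8 := (hmS q).1 hq
    refine ⟨q, b, (gd_iff hn).1 h8.1.1, h8.2, hqb, fun h9 => hb ((gd_iff hn).2 h9), ?_⟩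
    rcases mem_union.1 hlb with h9 | h9
    · exact Or.inl ((mem_lq hn).1 h9).1
    · exact Or.inr ((mem_lq hn).1 h9).1
  have ha : ∀ q, Full n E q → (∃ b, IsUnit4 (b - q) ∧ ¬ Full n E b) → ¬ Sp q →
        (∀ l : ℤ × ℤ, (l.1 + l.2) % 2 = 1 → cel n l = q → l ∈ O) ∨
        (∀ l : ℤ × ℤ, (l.1 + l.2) % 2 = 1 → cel n l = q → l ∈ C) := by
    rintro q hq ⟨b, hb1, hb2⟩ hsp
    have h8 : q ∈ S := (hmS q).2 ⟨⟨(gd_iff hn).2 hq, b, hb1, fun h9 => hb2 ((gd_iff hn).1 h9)⟩, hsp⟩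
    rcases h4 q h8 with h9 | h9
    · exact Or.inl fun l hl hlq => h9 ((mem_lq hn).2 ⟨hlq, hl⟩)
    · exact Or.inr fun l hl hlq => h9 ((mem_lq hn).2 ⟨hlq, hl⟩)
  have hTO : ∀ o ∈ O, ∀ v, (v = eu o ∨ v = ev o) → ∃ T, IsTie O W (vx ct) (4 * n) v T := by
    intro o ho v hv
    obtain ⟨T, hT1, hT2, hT3⟩ := h6 o ho v hv
    refine ⟨T, hT1, fun m hm => ?_, hT3⟩
    have := hT2 m hm
    omega
  have hTC : ∀ o ∈ C, ∀ g g', IsUnit4 (g' - g) → lbf g g' = o →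
        ∃ T, T ⊆ C ∧ (∀ m ∈ T, |m.1 + 1 - 2 * g.1| ≤ 2 * (4 * n) - 2 ∧
          |m.2 + 1 - 2 * g.2| ≤ 2 * (4 * n) - 2) ∧
          Co (du (H75.TwoArm.BB M) ((E ∪ W) \ T)) g (fi ct) := by
    intro o ho g g' hg1 hg2
    obtain ⟨T, hT1, hT2, hT3⟩ := h7 o ho g g' hg1 hg2
    refine ⟨T, hT1, fun m hm => ?_, hT3⟩
    have := hT2 m hm
    omega
  have hf : ∀ q, Full n E q → (Sp q ∨ ∀ b, IsUnit4 (b - q) → Full n E b) →
        Full n (E \ (O ∪ C)) q := by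
    intro q hq hq' l hl hlq
    rw [mem_sdiff]
    refine ⟨hq l hl hlq, fun h8 => ?_⟩
    obtain ⟨q', b, k1, k2, k3, k4, k5⟩ := hb l h8
    rcases k5 with k5 | k5
    · rw [hlq] at k5
      subst k5
      rcases hq' with h9 | h9
      · exact k2 h9
      · exact k4 (h9 b k3)
    · rw [hlq] at k5
      subst k5
      exact k4 hq
  refine ⟨O, C, h1, h2, h3, ha, hb, hTO, hTC, ?_, ?_, hf⟩
  · refine dobr_ties (M := M) h h1 h2 h3 ?_ ?_
    · intro o ho v hv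
      obtain ⟨T, hT1, -, hT3⟩ := hTO o ho v hv
      exact hT3.mono (union_subset_union_left hT1)
    · rintro o ho g ⟨g', hg1, hg2⟩
      obtain ⟨T, hT1, -, hT3⟩ := hTC o ho g g' hg1 hg2
      exact hT3.mono (Pool.Agent.H77.Q1.du_anti (sdiff_subset_sdiff subset_rfl hT1))
  · intro q hq hsp b hqb
    have hqE : Full n E q := fun l hl hlq => (mem_sdiff.1 (hq l hl hlq)).1
    have hbE : Full n E b := by
      by_contra h8
      have hl : ((2 * (n * q.1), 2 * (n * q.2) + 1) : ℤ × ℤ) ∈ lq n q :=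
        mem_lq'.2 (by simp only; omega)
      have hl' := (mem_lq hn).1 hl
      have h10 := (mem_sdiff.1 (hq _ hl'.2 hl'.1)).2
      rw [mem_union, not_or] at h10
      rcases ha q hqE ⟨b, hqb, h8⟩ hsp with h9 | h9
      · exact h10.1 (h9 _ hl'.2 hl'.1)
      · exact h10.2 (h9 _ hl'.2 hl'.1)
    by_cases h8 : Sp b ∨ ∀ c, IsUnit4 (c - b) → Full n E c
    · exact Or.inl (hf b hbE h8)
    · right
      rw [not_or] at h8
      obtain ⟨c, hc1, hc2⟩ : ∃ c, IsUnit4 (c - b) ∧ ¬ Full n E c := by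
        by_contra h9
        push Not at h9
        exact h8.2 h9
      rcases ha b hbE ⟨c, hc1, hc2⟩ h8.1 with h9 | h9
      · exact Or.inl fun l hl hlb => mem_union_right _ (h9 l hl hlb)
      · refine Or.inr fun l hl hlb => ?_
        have h10 := h9 l hl hlb
        refine ⟨fun h11 => (mem_sdiff.1 h11).2 (mem_union_right _ h10), fun h11 => ?_⟩
        rcases mem_union.1 h11 with h12 | h12
        · exact disjoint_left.1 h.disj (h2 h10) h12
        · exact disjoint_left.1 h3 h12 h10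

/-- the labels of two neighbouring cells are within distance `4 n - 1` (label coordinates) -/
lemma near_cells (hn : 1 ≤ n) {q b l m : ℤ × ℤ} (hqb : IsUnit4 (b - q))
    (hlo : (l.1 + l.2) % 2 = 1) (hmo : (m.1 + m.2) % 2 = 1)
    (hl : cel n l = q ∨ cel n l = b) (hm : cel n m = q ∨ cel n m = b) :
    |m.1 - l.1| ≤ 4 * n - 1 ∧ |m.2 - l.2| ≤ 4 * n - 1 := by
  refine near_lq hqb ?_ ?_
  · rcases hl with h | h
    · exact mem_union_left _ ((mem_lq hn).2 ⟨h, hlo⟩)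
    · exact mem_union_right _ ((mem_lq hn).2 ⟨h, hlo⟩)
  · rcases hm with h | h
    · exact mem_union_left _ ((mem_lq hn).2 ⟨h, hmo⟩)
    · exact mem_union_right _ ((mem_lq hn).2 ⟨h, hmo⟩)

end

end Pool.Agent.H30.Cell
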