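import Mathlib
import Pool.Agent.H30.Cell.Main
import Pool.Agent.H77.Q1.RC

set_option autoImplicit false
open Finset

/-! **Cells and ties (D3)** in the form of the interface `RC`. -/

namespace Pool.Agent.H30.Cell

open Pool.Agent.H75.Perc Pool.Agent.H75.TwoArm Pool.Agent.H75.Four Pool.Agent.H77.Q1
open Pool.Agent.Q1.M6c (Dobr)

section
variable {n : ℤ} {E W : Finset (ℤ × ℤ)} {ct : ℤ × ℤ}

/-- the cell `q` has a label near the tip -/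
def Spot (n D : ℤ) (ct q : ℤ × ℤ) : Prop :=
  ∃ l : ℤ × ℤ, (l.1 + l.2) % 2 = 1 ∧ cel n l = q ∧ |l.1 - (lab ct).1| < D ∧ |l.2 - (lab ct).2| < D

lemma exists_box (S : Finset (ℤ × ℤ)) (hodd : ∀ e ∈ S, (e.1 + e.2) % 2 = 1) :
    ∃ M : ℤ, S ⊆ H75.TwoArm.BB (M - 1) := by
  classical
  induction S using Finset.induction_on with
  | empty => exact ⟨0, empty_subset _⟩
  | insert a S _ ih =>
    obtain ⟨M, hM⟩ := ih (fun e he => hodd e (mem_insert_of_mem he))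
    have ha := hodd a (mem_insert_self _ _)
    refine ⟨max M (|a.1| + |a.2| + 2), ?_⟩
    intro l hl
    rw [mem_BB']
    have h1 := abs_nonneg a.1
    have h2 := abs_nonneg a.2
    rcases mem_insert.1 hl with rfl | hl
    · have h3 := le_abs_self l.1
      have h4 := neg_abs_le l.1
      have h5 := le_abs_self l.2
      have h6 := neg_abs_le l.2
      omega
    · have := mem_BB'.1 (hM hl)
      omega

lemma least_box (hct : lab ct ∈ E) (hE : ∀ e ∈ E, (e.1 + e.2) % 2 = 1)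
    (hW : ∀ e ∈ W, (e.1 + e.2) % 2 = 1) :
    ∃ M : ℤ, (E ⊆ H75.TwoArm.BB (M - 1) ∧ W ⊆ H75.TwoArm.BB (M - 1)) ∧
      ∀ M', E ⊆ H75.TwoArm.BB (M' - 1) → W ⊆ H75.TwoArm.BB (M' - 1) → M ≤ M' := by
  obtain ⟨M0, hM0⟩ := exists_box (E ∪ W) (by
    intro e he
    rcases mem_union.1 he with h | h
    · exact hE e h
    · exact hW e h)
  have h1 : ∃ b : ℤ, ∀ z : ℤ, (E ⊆ H75.TwoArm.BB (z - 1) ∧ W ⊆ H75.TwoArm.BB (z - 1)) → b ≤ z := by
    refine ⟨1, fun z hz => ?_⟩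
    have := mem_BB'.1 (hz.1 hct)
    omega
  obtain ⟨M, hM, hmin⟩ := Int.exists_least_of_bdd h1
    ⟨M0, subset_union_left.trans hM0, subset_union_right.trans hM0⟩
  exact ⟨M, hM, fun M' h2 h3 => hmin M' ⟨h2, h3⟩⟩

lemma BB_mono {a b : ℤ} (h : a ≤ b) : H75.TwoArm.BB a ⊆ H75.TwoArm.BB b := by
  intro l hl
  rw [mem_BB'] at hl ⊢
  omega

/-- **D3.** -/
theorem exists_RC (hn : 1 ≤ n) (h : Dobr E W ct) (hct : lab ct ∈ E) (D0 : ℤ) :
    ∃ O C : Finset (ℤ × ℤ), RC n (4 * n) D0 E W ct O C ∧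
      (∀ q, Rng n E q → (∀ l : ℤ × ℤ, (l.1 + l.2) % 2 = 1 → cel n l = q →
        D0 + 4 * n ≤ |l.1 - (lab ct).1| ∨ D0 + 4 * n ≤ |l.2 - (lab ct).2|) →
        (∀ l : ℤ × ℤ, (l.1 + l.2) % 2 = 1 → cel n l = q → l ∈ O) ∨
        (∀ l : ℤ × ℤ, (l.1 + l.2) % 2 = 1 → cel n l = q → l ∈ C)) ∧
      (∀ q, Full n (E \ (O ∪ C)) q → (∀ l : ℤ × ℤ, (l.1 + l.2) % 2 = 1 → cel n l = q →
        D0 + 4 * n ≤ |l.1 - (lab ct).1| ∨ D0 + 4 * n ≤ |l.2 - (lab ct).2|) →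
        ∀ b, IsUnit4 (b - q) → Full n (E \ (O ∪ C)) b ∨
        (∀ l : ℤ × ℤ, (l.1 + l.2) % 2 = 1 → cel n l = b → l ∈ W ∪ O) ∨
        (∀ l : ℤ × ℤ, (l.1 + l.2) % 2 = 1 → cel n l = b → l ∉ E \ (O ∪ C) ∧ l ∉ W ∪ O)) ∧
      (∀ q, Full n E q → (∀ b, IsUnit4 (b - q) → Full n E b) → Full n (E \ (O ∪ C)) q) := by
  obtain ⟨M, ⟨hEM, hWM⟩, hmin⟩ := least_box hct h.odd h.oddW
  obtain ⟨O, C, hO, hC, hd, ha, hb, hTO, hTC, hdob, he, hf⟩ :=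
    cells hn h hEM hWM hct (Spot n (D0 + 4 * n) ct)
  have hsp : ∀ q, (∀ l : ℤ × ℤ, (l.1 + l.2) % 2 = 1 → cel n l = q →
        D0 + 4 * n ≤ |l.1 - (lab ct).1| ∨ D0 + 4 * n ≤ |l.2 - (lab ct).2|) →
        ¬ Spot n (D0 + 4 * n) ct q := by
    rintro q h1 ⟨l, h2, h3, h4, h5⟩
    rcases h1 l h2 h3 with h6 | h6
    · exact absurd h4 (not_lt.2 h6)
    · exact absurd h5 (not_lt.2 h6)
  have hodd : ∀ o ∈ O ∪ C, (o.1 + o.2) % 2 = 1 := by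
    intro o ho
    rcases mem_union.1 ho with h1 | h1
    · exact h.odd o (hO h1)
    · exact h.odd o (hC h1)
  refine ⟨O, C, ⟨hO, hC, hd, ?_, ?_, hTO, ?_, hdob, ?_⟩, ?_, ?_, ?_⟩
  · intro o ho
    obtain ⟨q, b, h1, h2, h3, h4, h5⟩ := hb o ho
    obtain ⟨l, hl1, hl2, hl3⟩ : ∃ l : ℤ × ℤ, (l.1 + l.2) % 2 = 1 ∧ cel n l = b ∧ l ∉ E := by
      by_contra h6
      push Not at h6
      exact h4 h6
    have h6 := near_cells hn h3 (hodd o ho) hl1 h5 (Or.inr hl2)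
    exact ⟨l, hl1, hl3, by omega, by omega⟩
  · intro o ho
    obtain ⟨q, b, h1, h2, h3, h4, h5⟩ := hb o ho
    have hl : ((2 * (n * q.1), 2 * (n * q.2) + 1) : ℤ × ℤ) ∈ lq n q :=
      mem_lq'.2 (by simp only; omega)
    have hl' := (mem_lq hn).1 hl
    set l : ℤ × ℤ := (2 * (n * q.1), 2 * (n * q.2) + 1) with hldef
    have h6 := near_cells hn h3 (hodd o ho) hl'.2 h5 (Or.inl hl'.1)
    by_contra h7
    rw [not_or, not_le, not_le] at h7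
    refine h2 ⟨l, hl'.2, hl'.1, ?_, ?_⟩
    · have e : l.1 - (lab ct).1 = (l.1 - o.1) + (o.1 - (lab ct).1) := by ring
      rw [e]
      refine lt_of_le_of_lt (abs_add_le _ _) ?_
      omega
    · have e : l.2 - (lab ct).2 = (l.2 - o.2) + (o.2 - (lab ct).2) := by ring
      rw [e]
      refine lt_of_le_of_lt (abs_add_le _ _) ?_
      omega
  · intro M' h1 h2 o ho g g' hg1 hg2
    obtain ⟨T, hT1, hT2, hT3⟩ := hTC o ho g g' hg1 hg2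
    refine ⟨T, hT1, hT2, hT3.mono ?_⟩
    have h3 := BB_mono (hmin M' h1 h2)
    unfold du
    exact map_subset_map.2 (sdiff_subset_sdiff h3 subset_rfl)
  · intro o ho hF
    obtain ⟨q, b, h1, h2, h3, h4, h5⟩ := hb o ho
    rcases h5 with h5 | h5
    · rw [h5]; exact ⟨h1, b, h3, h4⟩
    · rw [h5] at hF; exact absurd hF h4
  · rintro q ⟨h1, b, h2, h3⟩ h4
    exact ha q h1 ⟨b, h2, h3⟩ (hsp q h4)
  · intro q h1 h2 b h3
    exact he q h1 (hsp q h2) b h3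
  · intro q h1 h2
    exact hf q h1 (Or.inr h2)

end

end Pool.Agent.H30.Cell
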