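import Mathlib
import Pool.Agent.H30.Cell.Final
import Pool.Agent.H77.Q1.Near
import Pool.Agent.H33.Q1.Good

set_option autoImplicit false
open Finset

/-! **Wall sum (D4), part 1: the ring.** `Fu n E q0` is the 4-component of `q0` of the full cells of a
rough Dobrushin environment. Its complement is king-connected, so all boundary darts `(q, q')`
(`q` in the component, `q'` next to it and not full) are on one orbit of `nx (kap F)` in the lattice of
the cells. -/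

namespace Pool.Agent.H30.Cell

open Pool.Agent.H75.Perc Pool.Agent.H75.TwoArm Pool.Agent.H75.Four Pool.Agent.H77.Q1
open Pool.Agent.H75.TwoArm.StrandAux hiding vx_nxC
open Pool.Agent.Q1 (DCo)
open Pool.Agent.Q1.M6c (Dobr)
open Pool.Agent.Q1.M3 (star kap mem_star_iff mem_kap_iff)
open Pool.Agent.H23.Q1 (Kg Af Fr ar_co ar_common ar_opc)

section
variable {n : ℤ} {E W : Finset (ℤ × ℤ)} {ct q0 : ℤ × ℤ}

lemma CC.full (h0 : Full n E q0) {q : ℤ × ℤ} (h : CC n E q0 q) : Full n E q := by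
  rcases Relation.ReflTransGen.cases_tail h with h1 | ⟨b, -, h1⟩
  · rw [h1]; exact h0
  · exact h1.2.2

open scoped Classical in
/-- the component of the full cells -/
noncomputable def Fu (n : ℤ) (E : Finset (ℤ × ℤ)) (q0 : ℤ × ℤ) : Finset (ℤ × ℤ) :=
  (E.image (cel n)).filter (fun q => CC n E q0 q)

lemma base_mem (hn : 1 ≤ n) (q : ℤ × ℤ) : cel n (2 * (n * q.1), 2 * (n * q.2) + 1) = q ∧
    ((2 * (n * q.1)) + (2 * (n * q.2) + 1)) % 2 = 1 := by
  have h : ((2 * (n * q.1), 2 * (n * q.2) + 1) : ℤ × ℤ) ∈ lq n q := mem_lq'.2 (by simp only; omega)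
  exact (mem_lq hn).1 h

lemma mem_Fu (hn : 1 ≤ n) (h0 : Full n E q0) {q : ℤ × ℤ} : q ∈ Fu n E q0 ↔ CC n E q0 q := by
  unfold Fu
  simp only [mem_filter]
  refine ⟨fun h => h.2, fun h => ⟨?_, h⟩⟩
  have h1 := base_mem hn q
  exact mem_image.2 ⟨_, CC.full h0 h _ h1.2 h1.1, h1.1⟩

lemma Fu.full (hn : 1 ≤ n) (h0 : Full n E q0) {q : ℤ × ℤ} (h : q ∈ Fu n E q0) : Full n E q :=
  CC.full h0 ((mem_Fu hn h0).1 h)

lemma Fu.step (hn : 1 ≤ n) (h0 : Full n E q0) {p q : ℤ × ℤ} (h : p ∈ Fu n E q0)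
    (hpq : IsUnit4 (q - p)) (hq : Full n E q) : q ∈ Fu n E q0 := by
  rw [mem_Fu hn h0] at h ⊢
  exact h.tail ⟨hpq, CC.full h0 h, hq⟩

lemma Fu.conn0 (hn : 1 ≤ n) (h0 : Full n E q0) {q : ℤ × ℤ} (h : CC n E q0 q) :
    Co (kap (Fu n E q0)) q0 q := by
  unfold H77.Q1.CC at h
  induction h with
  | refl => exact Co.refl _ _
  | @tail b c hb hbc ih =>
    have h1 : b ∈ Fu n E q0 := (mem_Fu hn h0).2 hb
    have h2 : c ∈ Fu n E q0 := (mem_Fu hn h0).2 (hb.tail hbc)
    exact ih.tail (ad_kap.2 ⟨hbc.1, h1, h2⟩)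

lemma Fu.conn (hn : 1 ≤ n) (h0 : Full n E q0) {p q : ℤ × ℤ} (hp : p ∈ Fu n E q0)
    (hq : q ∈ Fu n E q0) : Co (kap (Fu n E q0)) p q :=
  (Fu.conn0 hn h0 ((mem_Fu hn h0).1 hp)).symm.trans (Fu.conn0 hn h0 ((mem_Fu hn h0).1 hq))

/-! ### king paths -/

/-- king connection off `F` -/
def KN (F : Finset (ℤ × ℤ)) (a b : ℤ × ℤ) : Prop :=
  Relation.ReflTransGen (fun u v => Kg u v ∧ u ∉ F ∧ v ∉ F) a b

lemma KN.symm {F : Finset (ℤ × ℤ)} {a b : ℤ × ℤ} (h : KN F a b) : KN F b a := by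
  unfold KN at h
  induction h with
  | refl => exact Relation.ReflTransGen.refl
  | tail _ hbc ih => exact Relation.ReflTransGen.head ⟨hbc.1.symm, hbc.2.2, hbc.2.1⟩ ih

lemma KN.trans {F : Finset (ℤ × ℤ)} {a b c : ℤ × ℤ} (h : KN F a b) (h' : KN F b c) : KN F a c :=
  Relation.ReflTransGen.trans h h'

lemma KN.one {F : Finset (ℤ × ℤ)} {a b : ℤ × ℤ} (h : Kg a b) (ha : a ∉ F) (hb : b ∉ F) :
    KN F a b := Relation.ReflTransGen.single ⟨h, ha, hb⟩

/-- the faces around a cell off `F` are joined off `kap F` -/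
lemma faces_off {F : Finset (ℤ × ℤ)} {a : ℤ × ℤ} (ha : a ∉ F) {g g' : ℤ × ℤ} (hg : Af a g)
    (hg' : Af a g') : DCo (kap F) g g' := by
  refine ⟨star {a}, ar_co (z := a) ?_ hg hg'⟩
  intro l hl hal
  refine ⟨?_, ?_⟩
  · rw [mem_star_iff hl]
    rcases hal with h | h
    · exact Or.inl (by rw [← h]; exact mem_singleton_self _)
    · exact Or.inr (by rw [← h]; exact mem_singleton_self _)
  · intro h1
    rw [mem_kap_iff hl] at h1
    rcases hal with h | h
    · exact ha (h ▸ h1.1)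
    · exact ha (h ▸ h1.2)

lemma faces_kn {F : Finset (ℤ × ℤ)} {a b : ℤ × ℤ} (ha : a ∉ F) (h : KN F a b) {g : ℤ × ℤ}
    (hg : Af a g) : ∀ g', Af b g' → DCo (kap F) g g' := by
  unfold KN at h
  induction h with
  | refl => exact fun g' hg' => faces_off ha hg hg'
  | @tail b c _ hbc ih =>
    intro g' hg'
    obtain ⟨f, hf, hf'⟩ := ar_common hbc.1
    exact (ih f hf).trans (faces_off hbc.2.2 hf' hg')

/-! ### cells which are not full -/

lemma near_cel (hn : 1 ≤ n) {l m : ℤ × ℤ} (h1 : l.1 - 2 ≤ m.1 ∧ m.1 ≤ l.1 + 2)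
    (h2 : l.2 - 2 ≤ m.2 ∧ m.2 ≤ l.2 + 2) : Kg (cel n l) (cel n m) := by
  have key : ∀ a b : ℤ, b ≤ a + 2 → b / 2 / n ≤ a / 2 / n + 1 := by
    intro a b h3
    have h4 : b / 2 ≤ a / 2 + 1 := by omega
    have h5 : b / 2 / n ≤ (a / 2 + 1) / n := Int.ediv_le_ediv (by omega) h4
    have h6 := div_succ hn (a / 2)
    omega
  unfold Kg cel eu
  simp only
  have a1 := key l.1 m.1 h1.2
  have a2 := key m.1 l.1 (by omega)
  have a3 := key l.2 m.2 h2.2
  have a4 := key m.2 l.2 (by omega)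
  omega

lemma notMem_of_label (hn : 1 ≤ n) (h0 : Full n E q0) {l : ℤ × ℤ} (hl : (l.1 + l.2) % 2 = 1)
    (hlE : l ∉ E) : cel n l ∉ Fu n E q0 := fun h => hlE (Fu.full hn h0 h l hl rfl)

lemma kn_label (hn : 1 ≤ n) (h0 : Full n E q0) {l m : ℤ × ℤ} (hl : (l.1 + l.2) % 2 = 1)
    (hlE : l ∉ E) (hm : (m.1 + m.2) % 2 = 1) (hmE : m ∉ E) (h1 : l.1 - 2 ≤ m.1 ∧ m.1 ≤ l.1 + 2)
    (h2 : l.2 - 2 ≤ m.2 ∧ m.2 ≤ l.2 + 2) : KN (Fu n E q0) (cel n l) (cel n m) :=
  KN.one (near_cel hn h1 h2) (notMem_of_label hn h0 hl hlE) (notMem_of_label hn h0 hm hmE)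

lemma kn_W (hn : 1 ≤ n) (h0 : Full n E q0) (hd : Disjoint E W) {p t : ℤ × ℤ}
    (hp : (p.1 + p.2) % 2 = 1) (hpE : p ∉ E) (hpt : En p t) {v : ℤ × ℤ} (h : Co W t v) :
    ∀ l : ℤ × ℤ, (l.1 + l.2) % 2 = 1 → l ∉ E → En l v →
      KN (Fu n E q0) (cel n l) (cel n p) := by
  induction h with
  | refl =>
    intro l hl hlE hlv
    have a1 := (en_iff hl).1 hlv
    have a2 := (en_iff hp).1 hpt
    exact kn_label hn h0 hl hlE hp hpE (by omega) (by omega)
  | @tail b c _ hbc ih =>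
    intro l hl hlE hlv
    have ho : ((b + c).1 + (b + c).2) % 2 = 1 := by
      have := unit_cases hbc.1
      simp only [Prod.fst_add, Prod.snd_add]
      omega
    have hm : b + c ∉ E := fun h1 => disjoint_left.1 hd h1 hbc.2
    have hb : En (b + c) b ∧ En (b + c) c := by
      unfold En
      rcases H69.Q1.ends_of_add hbc.1 rfl with ⟨h3, h4⟩ | ⟨h3, h4⟩
      · exact ⟨Or.inl h3, Or.inr h4⟩
      · exact ⟨Or.inr h3, Or.inl h4⟩
    have a1 := (en_iff hl).1 hlv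
    have a2 := (en_iff ho).1 hb.2
    exact (kn_label hn h0 hl hlE ho hm (by omega) (by omega)).trans (ih _ ho hm hb.1)

lemma kn_L (hn : 1 ≤ n) (h0 : Full n E q0) {p f : ℤ × ℤ} (hp : (p.1 + p.2) % 2 = 1)
    (hpE : p ∉ E) (hpf : Fa p f) {g : ℤ × ℤ} (h : DCo (E ∪ W) f g) :
    ∀ l : ℤ × ℤ, (l.1 + l.2) % 2 = 1 → l ∉ E → Fa l g → KN (Fu n E q0) (cel n l) (cel n p) := by
  obtain ⟨B, hB⟩ := h
  induction hB with
  | refl =>
    intro l hl hlE hlv
    have a1 := (fa_iff hl).1 hlv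
    have a2 := (fa_iff hp).1 hpf
    exact kn_label hn h0 hl hlE hp hpE (by omega) (by omega)
  | @tail b c _ hbc ih =>
    intro l hl hlE hlv
    obtain ⟨h1, h2, h3⟩ := H77.Q1.ad_du.1 hbc
    rw [mem_union, not_or] at h3
    have ho := Pool.Agent.H23.Q1.odd_lbf h1
    have hb : Fa (lbf b c) b := ⟨c, h1, rfl⟩
    have hc : Fa (lbf b c) c := by
      refine ⟨b, ?_, ?_⟩
      · have := isUnit4_neg h1
        rwa [neg_sub] at this
      · unfold lbf; rw [add_comm]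
    have a1 := (fa_iff hl).1 hlv
    have a2 := (fa_iff ho).1 hc
    exact (kn_label hn h0 hl hlE ho h3.1 (by omega) (by omega)).trans (ih _ ho h3.1 hb)

/-- the ends and faces of `plab` -/
lemma plab_en_fa (z : ℤ × ℤ) : ((plab z).1 + (plab z).2) % 2 = 1 ∧ En (plab z) (vx z) ∧
    Fa (plab z) (fi z) := by
  obtain ⟨h1, ho⟩ := Pool.Agent.H23.Q1.plab_end z
  refine ⟨ho, h1, ?_⟩
  obtain ⟨z', h2, h3⟩ := Pool.Agent.H33.Q1.exists_nxO z
  have h4 := corner_fa z'
  rw [h2, h3] at h4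
  exact h4

/-- all labels which are not random are connected to the root label -/
lemma kn_root (hn : 1 ≤ n) (h0 : Full n E q0) (h : Dobr E W ct) {l : ℤ × ℤ}
    (hl : (l.1 + l.2) % 2 = 1) (hlE : l ∉ E) : KN (Fu n E q0) (cel n l) (cel n (plab ct)) := by
  obtain ⟨h1, h2, h3⟩ := plab_en_fa ct
  have hz := (opc_zu hl).2.2.1
  by_cases hW : l ∈ W
  · have h4 := h.wco (zu l) (by rw [hz]; exact hW)
    refine kn_W hn h0 h.disj h1 h.root h2 h4 l hl hlE ?_
    have := corner_en (zu l)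
    rwa [hz] at this
  · have h4 := h.lco (zu l) (by rw [hz]; exact hlE) (by rw [hz]; exact hW)
    refine kn_L hn h0 h1 h.root h3 h4 l hl hlE ?_
    have := corner_fa (zu l)
    rwa [hz] at this

/-- every cell off the component is connected to the root cell -/
theorem kn_all (hn : 1 ≤ n) (h0 : Full n E q0) (h : Dobr E W ct) {a : ℤ × ℤ}
    (ha : a ∉ Fu n E q0) : KN (Fu n E q0) a (cel n (plab ct)) := by
  classical
  -- a column beyond all full cells
  obtain ⟨R, hR⟩ : ∃ R : ℤ, ∀ q, Full n E q → q.1 ≤ R := by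
    obtain ⟨R, hR⟩ := ((E.image (cel n)).image Prod.fst).exists_le
    refine ⟨R, fun q hq => hR _ (mem_image_of_mem _ ?_)⟩
    have h1 := base_mem hn q
    exact mem_image.2 ⟨_, hq _ h1.2 h1.1, h1.1⟩
  have hnf : ∀ b, ¬ Full n E b → KN (Fu n E q0) b (cel n (plab ct)) := by
    intro b hb
    obtain ⟨l, hl1, hl2, hl3⟩ : ∃ l : ℤ × ℤ, (l.1 + l.2) % 2 = 1 ∧ cel n l = b ∧ l ∉ E := by
      by_contra h6
      push Not at h6
      exact hb h6
    have := kn_root hn h0 h hl1 hl3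
    rwa [hl2] at this
  have hall : ∀ k : ℕ, ∀ q, q ∉ Fu n E q0 → R + 1 - q.1 ≤ k →
      KN (Fu n E q0) q (cel n (plab ct)) := by
    intro k
    induction k with
    | zero =>
      intro q _ hk
      refine hnf q fun h1 => ?_
      have := hR q h1
      omega
    | succ k ih =>
      intro q hq hk
      by_cases h1 : Full n E q
      · have h3 : (q.1 + 1, q.2) ∉ Fu n E q0 := by
          intro h4
          refine hq (Fu.step hn h0 h4 ?_ h1)
          unfold IsUnit4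
          simp only [Prod.ext_iff, Prod.fst_sub, Prod.snd_sub]
          omega
        refine (KN.one ?_ hq h3).trans (ih _ h3 (by simp only; omega))
        unfold Kg
        simp only
        omega
      · exact hnf q h1
  exact hall (R + 1 - a.1).toNat a ha (by omega)

/-- **The ring.** All boundary darts of a component of full cells are on one orbit. -/
theorem ring (hn : 1 ≤ n) (h0 : Full n E q0) (h : Dobr E W ct) {z z' : ℤ × ℤ}
    (h1 : vx z ∈ Fu n E q0) (h2 : vx (opc z) ∉ Fu n E q0)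
    (h3 : vx z' ∈ Fu n E q0) (h4 : vx (opc z') ∉ Fu n E q0) :
    InOrb (nx (kap (Fu n E q0))) z z' := by
  obtain ⟨B, hB⟩ := faces_kn h2 ((kn_all hn h0 h h2).trans (kn_all hn h0 h h4).symm)
    (ar_opc z) _ (ar_opc z')
  exact H69.Q1.inOrb_of_co _ (Fu.conn hn h0 h1 h3) hB

end

/-! ### The sum over the ring -/

lemma nx_kap {F : Finset (ℤ × ℤ)} {z : ℤ × ℤ} (hz : vx z ∈ F) : vx (nx (kap F) z) ∈ F := by
  unfold nx
  split_ifs with h
  · rw [(nxO_opc z).1]
    exact ((lab_kap z).1 h).2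
  · rw [vx_nxC]; exact hz

lemma card_four (q : ℤ × ℤ) : (H69.Q1.four q).card ≤ 4 := by
  unfold H69.Q1.four
  exact card_le_four

/-- the cost along an orbit with distinct corners -/
lemma sum_orbit {F : Finset (ℤ × ℤ)} {f : ℤ × ℤ → ℝ} (hf : ∀ q ∈ F, 0 ≤ f q) {z : ℕ → ℤ × ℤ} {i : ℕ}
    (hz : ∀ j < i, vx (z j) ∈ F) (hinj : ∀ j < i, ∀ k < i, z j = z k → j = k) :
    ∑ j ∈ range i, f (vx (z j)) ≤ ∑ q ∈ F, 4 * f q := by
  classical
  rw [← sum_fiberwise_of_maps_to (s := range i) (t := F) (g := fun j => vx (z j))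
    (fun j hj => hz j (mem_range.1 hj))]
  refine sum_le_sum fun q hq => ?_
  have h1 : ∑ j ∈ (range i).filter (fun j => vx (z j) = q), f (vx (z j)) =
      ∑ j ∈ (range i).filter (fun j => vx (z j) = q), f q :=
    sum_congr rfl fun j hj => by rw [(mem_filter.1 hj).2]
  rw [h1, sum_const, nsmul_eq_mul]
  refine mul_le_mul_of_nonneg_right ?_ (hf q hq)
  have h2 : ((range i).filter (fun j => vx (z j) = q)).card ≤ (H69.Q1.four q).card := by
    refine card_le_card_of_injOn z ?_ ?_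
    · intro j hj
      rw [mem_coe, mem_filter] at hj
      exact H69.Q1.mem_four.2 hj.2
    · intro j hj k hk hjk
      rw [mem_coe, mem_filter, mem_range] at hj hk
      exact hinj j hj.1 k hk.1 hjk
  exact_mod_cast h2.trans (card_four q)

/-- **The sum over the ring.** `P` are the values at the corners of the cells of `F`. -/
theorem ring_sum {F : Finset (ℤ × ℤ)} {P : ℤ × ℤ → ℂ} {f : ℤ × ℤ → ℝ} (hf : ∀ q ∈ F, 0 ≤ f q)
    (hP : ∀ z, vx z ∈ F → ‖P (nx (kap F) z) - P z‖ ≤ f (vx z)) {z z' : ℤ × ℤ} (hz : vx z ∈ F)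
    (h : InOrb (nx (kap F)) z z') : ‖P z' - P z‖ ≤ 4 * ∑ q ∈ F, f q := by
  obtain ⟨L, hL⟩ := H69.Q1.exists_orb_nx (kap F) z
  obtain ⟨i, hi, rfl⟩ := (hL.inOrb_iff z').1 h
  have hv : ∀ j, vx ((nx (kap F))^[j] z) ∈ F := by
    intro j
    induction j with
    | zero => exact hz
    | succ j ih => rw [Function.iterate_succ_apply']; exact nx_kap ih
  have h1 : ∀ i, ‖P ((nx (kap F))^[i] z) - P z‖ ≤ ∑ j ∈ range i, f (vx ((nx (kap F))^[j] z)) := by
    intro i
    induction i with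
    | zero => simp
    | succ i ih =>
      rw [sum_range_succ, Function.iterate_succ_apply']
      have e : P (nx (kap F) ((nx (kap F))^[i] z)) - P z =
        (P (nx (kap F) ((nx (kap F))^[i] z)) - P ((nx (kap F))^[i] z)) +
          (P ((nx (kap F))^[i] z) - P z) := by ring
      rw [e]
      refine (norm_add_le _ _).trans ?_
      have := hP _ (hv i)
      linarith
  refine (h1 i).trans ?_
  rw [mul_sum]
  refine sum_orbit hf (fun j _ => hv j) ?_
  intro j hj k hk hjk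
  rcases lt_trichotomy j k with h2 | h2 | h2
  · exact absurd hjk (hL.inj j k h2 (by omega))
  · exact h2
  · exact absurd hjk.symm (hL.inj k j h2 (by omega))

end Pool.Agent.H30.Cell
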