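import Mathlib
import Pool.Agent.H30.Cell.Ring
import Pool.Agent.H30.Cell.SideDefs
import Pool.Agent.H77.Q1.Star

set_option autoImplicit false
open Finset

/-! **Wall sum (D4), part 2: the sum over the darts.** -/

namespace Pool.Agent.H30.Cell

open Pool.Agent.H75.Perc Pool.Agent.H75.TwoArm Pool.Agent.H75.Four Pool.Agent.H77.Q1
open Pool.Agent.Q1 (Env)
open Pool.Agent.Q1.M6c (Dobr DEnvX mm)
open Pool.Agent.H68.Q1 (recd recd_nonneg)
open Pool.Agent.Q1.M3 (star kap mem_star_iff mem_kap_iff)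

/-- the direction of a corner -/
def dirc (z : ℤ × ℤ) : ℤ × ℤ := vx (opc z) - vx z

lemma vxe (x y : ℤ) : vx (2 * x, 2 * y) = (x, y) ∧ vx (2 * x + 1, 2 * y) = (x, y) ∧
    vx (2 * x + 1, 2 * y + 1) = (x, y) ∧ vx (2 * x, 2 * y + 1) = (x, y) := by
  unfold vx
  refine ⟨?_, ?_, ?_, ?_⟩ <;> refine Prod.ext ?_ ?_ <;> simp only <;> omega

lemma dirc_cases (x y : ℤ) : dirc (2 * x, 2 * y) = (0, -1) ∧ dirc (2 * x + 1, 2 * y) = (1, 0) ∧
    dirc (2 * x + 1, 2 * y + 1) = (0, 1) ∧ dirc (2 * x, 2 * y + 1) = (-1, 0) := by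
  unfold dirc opc vx
  refine ⟨?_, ?_, ?_, ?_⟩ <;> refine Prod.ext ?_ ?_ <;> simp only [Prod.fst_sub, Prod.snd_sub] <;>
    split_ifs <;> simp only <;> omega

lemma opc_vx (z : ℤ × ℤ) : vx (opc z) = vx z + dirc z := by
  unfold dirc; abel

/-- the moves of the corners -/
lemma moves (z : ℤ × ℤ) : IsUnit4 (dirc z) ∧ IsUnit4 (dirc (nxC z)) ∧
    (dirc z).1 * (dirc (nxC z)).1 + (dirc z).2 * (dirc (nxC z)).2 = 0 ∧
    vx (nxC z) = vx z ∧ vx (nxO (nxC z)) = vx z + dirc (nxC z) ∧ dirc (nxO (nxC z)) = dirc z ∧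
    vx (nxO (nxO (nxC z))) = vx z + dirc (nxC z) + dirc z ∧
    dirc (nxO (nxO (nxC z))) = - dirc (nxC z) := by
  have e10 : ∀ x y : ℤ, nxO (2 * x + 1, 2 * y) = (2 * (x + 1), 2 * y) := by
    intro x y
    have := nxO10 (x + 1) y
    rwa [show 2 * (x + 1) - 1 = 2 * x + 1 by ring] at this
  have e00 : ∀ x y : ℤ, nxO (2 * x, 2 * y) = (2 * x, 2 * (y - 1) + 1) := by
    intro x y
    rw [nxO00]
    exact Prod.ext rfl (by simp only; ring)
  have e01 : ∀ x y : ℤ, nxO (2 * x, 2 * y + 1) = (2 * (x - 1) + 1, 2 * y + 1) := by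
    intro x y
    have := nxO01 x (y + 1)
    rw [show 2 * (y + 1) - 1 = 2 * y + 1 by ring] at this
    rw [this]
    exact Prod.ext (by simp only; ring) rfl
  have e11 : ∀ x y : ℤ, nxO (2 * x + 1, 2 * y + 1) = (2 * x + 1, 2 * (y + 1)) := by
    intro x y
    have := nxO11 (x + 1) (y + 1)
    rwa [show 2 * (x + 1) - 1 = 2 * x + 1 by ring, show 2 * (y + 1) - 1 = 2 * y + 1 by ring] at this
  obtain ⟨x, y, -, h | h | h | h⟩ := four_vx z <;> rw [h]
  · rw [nxC00, e10, e00, (dirc_cases x y).1, (dirc_cases x y).2.1, (dirc_cases _ _).1,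
      (dirc_cases _ _).2.2.2, (vxe _ _).1, (vxe _ _).2.1, (vxe _ _).1, (vxe _ _).2.2.2]
    unfold IsUnit4
    refine ⟨by simp, by simp, by simp, rfl, ?_, rfl, ?_, ?_⟩ <;> refine Prod.ext ?_ ?_ <;>
      simp only [Prod.fst_add, Prod.snd_add, Prod.fst_neg, Prod.snd_neg] <;> omega
  · rw [nxC10, e11, e10, (dirc_cases x y).2.1, (dirc_cases x y).2.2.1, (dirc_cases _ _).2.1,
      (dirc_cases _ _).1, (vxe _ _).2.1, (vxe _ _).2.2.1, (vxe _ _).2.1, (vxe _ _).1]
    unfold IsUnit4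
    refine ⟨by simp, by simp, by simp, rfl, ?_, rfl, ?_, ?_⟩ <;> refine Prod.ext ?_ ?_ <;>
      simp only [Prod.fst_add, Prod.snd_add, Prod.fst_neg, Prod.snd_neg] <;> omega
  · rw [nxC11, e01, e11, (dirc_cases x y).2.2.1, (dirc_cases x y).2.2.2, (dirc_cases _ _).2.2.1,
      (dirc_cases _ _).2.1, (vxe _ _).2.2.1, (vxe _ _).2.2.2, (vxe _ _).2.2.1, (vxe _ _).2.1]
    unfold IsUnit4
    refine ⟨by simp, by simp, by simp, rfl, ?_, rfl, ?_, ?_⟩ <;> refine Prod.ext ?_ ?_ <;>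
      simp only [Prod.fst_add, Prod.snd_add, Prod.fst_neg, Prod.snd_neg] <;> omega
  · rw [nxC01, e00, e01, (dirc_cases x y).2.2.2, (dirc_cases x y).1, (dirc_cases _ _).2.2.2,
      (dirc_cases _ _).2.2.1, (vxe _ _).2.2.2, (vxe _ _).1, (vxe _ _).2.2.2, (vxe _ _).2.2.1]
    unfold IsUnit4
    refine ⟨by simp, by simp, by simp, rfl, ?_, rfl, ?_, ?_⟩ <;> refine Prod.ext ?_ ?_ <;>
      simp only [Prod.fst_add, Prod.snd_add, Prod.fst_neg, Prod.snd_neg] <;> omega

/-- a corner for every dart -/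
lemma exists_dir {q q' : ℤ × ℤ} (h : IsUnit4 (q' - q)) : ∃ z, vx z = q ∧ vx (opc z) = q' := by
  have key : ∀ z, vx z = q → dirc z = q' - q → vx z = q ∧ vx (opc z) = q' := by
    intro z h1 h2
    refine ⟨h1, ?_⟩
    rw [opc_vx, h1, h2]; abel
  obtain ⟨x, y⟩ := q
  have h2 := dirc_cases x y
  have h3 := vxe x y
  rcases h with h | h | h | h
  · exact ⟨_, key _ h3.2.1 (h2.2.1.trans h.symm)⟩
  · exact ⟨_, key _ h3.2.2.1 (h2.2.2.1.trans h.symm)⟩
  · exact ⟨_, key _ h3.2.2.2 (h2.2.2.2.trans h.symm)⟩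
  · exact ⟨_, key _ h3.1 (h2.1.trans h.symm)⟩

section val
variable (n : ℤ) (F : Finset (ℤ × ℤ)) (Hv : ℤ × ℤ → ℂ)

/-- the value at the side of a corner -/
noncomputable def wz (z : ℤ × ℤ) : ℂ := Hv (wp n (vx z) (dirc z))

open scoped Classical in
/-- the value at the next side -/
noncomputable def PP (z : ℤ × ℤ) : ℂ :=
  if lab z ∉ kap F then wz n Hv z else
  if lab (nxO z) ∉ kap F then wz n Hv (nxO z) else
  if lab (nxO (nxO z)) ∉ kap F then wz n Hv (nxO (nxO z)) else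
  if lab (nxO (nxO (nxO z))) ∉ kap F then wz n Hv (nxO (nxO (nxO z))) else 0

variable {n F Hv}

lemma PP_closed {z : ℤ × ℤ} (h : lab z ∉ kap F) : PP n F Hv z = wz n Hv z := by
  unfold PP; rw [if_pos h]

lemma PP_open {z : ℤ × ℤ} (h : lab z ∈ kap F) : PP n F Hv (nxO z) = PP n F Hv z := by
  unfold PP
  rw [nxO_four]
  simp only [h, not_true_eq_false, if_false]
end val

section sum
variable {n : ℤ} {N : ℕ} {X : Env} {W S F : Finset (ℤ × ℤ)} {Hv Hf : ℤ × ℤ → ℂ} {q0 : ℤ × ℤ}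

/-- a step from a closed corner is a step to the next dart -/
lemma step_dart (hn : 1 ≤ n) (h0 : Full n X.E q0) {z : ℤ × ℤ} (hz : vx z ∈ Fu n X.E q0)
    (hc : lab z ∉ kap (Fu n X.E q0)) : ∃ q2 d2, IsUnit4 d2 ∧ Dart n X.E q2 d2 ∧
      Nxt n X.E (vx z) (dirc z) (dirc (nxC z)) q2 d2 ∧
      PP n (Fu n X.E q0) Hv (nxC z) = Hv (wp n q2 d2) ∧ ¬ Full n X.E (vx z + dirc z) ∧
      (q2 = vx z ∨ (Full n X.E (vx z + dirc (nxC z)) ∧ (q2 = vx z + dirc (nxC z) ∨
        q2 = vx z + dirc (nxC z) + dirc z))) := by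
  set G := Fu n X.E q0 with hG
  obtain ⟨m1, m2, m3, m4, m5, m6, m7, m8⟩ := moves z
  have hF : ∀ q ∈ G, Full n X.E q := fun q hq => Fu.full hn h0 hq
  have hst : ∀ p q, p ∈ G → IsUnit4 (q - p) → q ∉ G → ¬ Full n X.E q := by
    intro p q hp hu hq hf
    exact hq (Fu.step hn h0 hp hu hf)
  have hkap : ∀ y, lab y ∈ kap G ↔ vx y ∈ G ∧ vx y + dirc y ∈ G := by
    intro y; rw [lab_kap, opc_vx]
  have hd : vx z + dirc z ∉ G := fun h1 => hc ((hkap z).2 ⟨hz, h1⟩)
  have hdF : ¬ Full n X.E (vx z + dirc z) := hst _ _ hz (by rw [add_sub_cancel_left]; exact m1) hd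
  have mC : IsUnit4 (-dirc (nxC z)) := isUnit4_neg m2
  by_cases h1 : lab (nxC z) ∈ kap G
  · have h2 := ((hkap _).1 h1).2
    rw [m4] at h2
    rw [← PP_open h1]
    by_cases h3 : lab (nxO (nxC z)) ∈ kap G
    · have h4 := ((hkap _).1 h3).2
      rw [m5, m6] at h4
      rw [← PP_open h3]
      have h5 : lab (nxO (nxO (nxC z))) ∉ kap G := by
        intro h6
        have h7 := ((hkap _).1 h6).2
        rw [m7, m8] at h7
        apply hd
        convert h7 using 1
        abel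
      rw [PP_closed h5]
      refine ⟨vx z + dirc (nxC z) + dirc z, - dirc (nxC z), mC, ⟨hF _ h4, mC, ?_⟩,
        Or.inr (Or.inr ⟨hF _ h2, hF _ h4, rfl, rfl⟩), ?_, hdF, Or.inr ⟨hF _ h2, Or.inr rfl⟩⟩
      · have e : vx z + dirc (nxC z) + dirc z + -dirc (nxC z) = vx z + dirc z := by abel
        rw [e]; exact hdF
      · unfold wz; rw [m7, m8]
    · rw [PP_closed h3]
      have h4 : vx z + dirc (nxC z) + dirc z ∉ G := by
        intro h5
        exact h3 ((hkap _).2 ⟨by rw [m5]; exact h2, by rw [m5, m6]; exact h5⟩)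
      have h5 : ¬ Full n X.E (vx z + dirc (nxC z) + dirc z) :=
        hst _ _ h2 (by rw [add_sub_cancel_left]; exact m1) h4
      refine ⟨vx z + dirc (nxC z), dirc z, m1, ⟨hF _ h2, m1, h5⟩,
        Or.inl ⟨hF _ h2, h5, rfl, rfl⟩, ?_, hdF, Or.inr ⟨hF _ h2, Or.inl rfl⟩⟩
      unfold wz; rw [m5, m6]
  · rw [PP_closed h1]
    have h2 : vx z + dirc (nxC z) ∉ G := by
      intro h3
      exact h1 ((hkap _).2 ⟨by rw [m4]; exact hz, by rw [m4]; exact h3⟩)
    have h3 : ¬ Full n X.E (vx z + dirc (nxC z)) :=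
      hst _ _ hz (by rw [add_sub_cancel_left]; exact m2) h2
    refine ⟨vx z, dirc (nxC z), m2, ⟨hF _ hz, m2, h3⟩, Or.inr (Or.inl ⟨h3, rfl, rfl⟩), ?_, hdF,
      Or.inl rfl⟩
    unfold wz; rw [m4]

lemma orth_sum {d t : ℤ × ℤ} (h1 : IsUnit4 d) (h2 : IsUnit4 t) (h3 : d.1 * t.1 + d.2 * t.2 = 0) :
    (-1 ≤ t.1 + d.1 ∧ t.1 + d.1 ≤ 1) ∧ (-1 ≤ t.2 + d.2 ∧ t.2 + d.2 ≤ 1) := by
  rcases h1 with h1 | h1 | h1 | h1 <;> rcases h2 with h2 | h2 | h2 | h2 <;> rw [h1, h2] at h3 ⊢ <;>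
  simp at h3 ⊢

/-- neighbourhood -/
noncomputable def nb (q : ℤ × ℤ) : Finset (ℤ × ℤ) := Icc (q.1 - 1) (q.1 + 1) ×ˢ Icc (q.2 - 1) (q.2 + 1)

lemma mem_nb {p q : ℤ × ℤ} : p ∈ nb q ↔
    (q.1 - 1 ≤ p.1 ∧ p.1 ≤ q.1 + 1) ∧ (q.2 - 1 ≤ p.2 ∧ p.2 ≤ q.2 + 1) := by
  unfold nb
  rw [mem_product, mem_Icc, mem_Icc]

lemma nb_comm {p q : ℤ × ℤ} : p ∈ nb q ↔ q ∈ nb p := by
  rw [mem_nb, mem_nb]; omega

lemma card_nb (q : ℤ × ℤ) : (nb q).card = 9 := by
  unfold nb
  rw [card_product, Int.card_Icc, Int.card_Icc]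
  have h1 : (q.1 + 1 + 1 - (q.1 - 1)).toNat = 3 := by omega
  have h2 : (q.2 + 1 + 1 - (q.2 - 1)).toNat = 3 := by omega
  rw [h1, h2]

lemma sum_nb (F S : Finset (ℤ × ℤ)) : ∑ q ∈ F, (S ∩ nb q).card ≤ 9 * S.card := by
  have h1 : ∀ q, (S ∩ nb q).card = ∑ s ∈ S, if s ∈ nb q then 1 else 0 := by
    intro q
    rw [← sum_filter, ← filter_mem_eq_inter, card_eq_sum_ones]
  simp only [h1]
  rw [sum_comm]
  calc ∑ s ∈ S, ∑ q ∈ F, (if s ∈ nb q then 1 else 0) ≤ ∑ s ∈ S, 9 := by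
        refine sum_le_sum fun s _ => ?_
        rw [← sum_filter, ← card_eq_sum_ones, ← card_nb s]
        refine card_le_card fun q hq => ?_
        exact nb_comm.1 (mem_filter.1 hq).2
    _ = 9 * S.card := by rw [sum_const, smul_eq_mul, mul_comm]

end sum

/-- **D4 from the local estimates.** -/
theorem wall_of (h0 : SIDE0) (h1 : SIDE1) : WALL := by
  classical
  obtain ⟨C0, hC0, h0⟩ := h0
  obtain ⟨C1, hC1, h1⟩ := h1
  refine ⟨2 * C0 + 4 * (C1 + 2 * C0) + 36 * (2 * C0 + 32), by positivity, ?_⟩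
  intro n N X W S F Hv Hf q1 q2 hn hnN hX hH hE hT hq1 hq2 hcc hF hS
  have hn1 : 1 ≤ n := by omega
  set R := recd mm N with hR
  have hR0 : 0 ≤ R := recd_nonneg mm N
  set A : ℝ := (n : ℝ) ^ (2 / 3 : ℝ) with hA
  have hA0 : 0 ≤ A := by positivity
  set G := Fu n X.E q1 with hG
  have hf1 : Full n X.E q1 := hq1.1
  have hq1G : q1 ∈ G := (mem_Fu hn1 hf1).2 Relation.ReflTransGen.refl
  have hq2G : q2 ∈ G := (mem_Fu hn1 hf1).2 hcc
  -- the cost
  set f : ℤ × ℤ → ℝ := fun q => if Rng n X.E q then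
    (C1 + 2 * C0) * A + (2 * C0 + 32) * R * A * (S ∩ nb q).card else 0 with hf
  have hf0 : ∀ q, 0 ≤ f q := by
    intro q
    rw [hf]
    simp only
    split_ifs <;> positivity
  have hP : ∀ z, vx z ∈ G → ‖PP n G Hv (nx (kap G) z) - PP n G Hv z‖ ≤ f (vx z) := by
    intro z hz
    by_cases hc : lab z ∈ kap G
    · have e : nx (kap G) z = nxO z := by unfold nx; rw [if_pos hc]
      rw [e, PP_open hc, sub_self, norm_zero]
      exact hf0 _
    · have e : nx (kap G) z = nxC z := by unfold nx; rw [if_neg hc]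
      rw [e]
      obtain ⟨m1, m2, m3, m4, m5, m6, m7, m8⟩ := moves z
      obtain ⟨p, d, hd, hD, hN, hPP, hnf, hp⟩ := step_dart (Hv := Hv) hn1 hf1 hz hc
      rw [hPP, PP_closed hc]
      unfold wz
      set q := vx z with hq
      set t := dirc (nxC z) with ht
      have hqF : Full n X.E q := Fu.full hn1 hf1 hz
      have hqR : Rng n X.E q := ⟨hqF, q + dirc z, by rw [add_sub_cancel_left]; exact m1, hnf⟩
      have hpR : Rng n X.E p := ⟨hD.1, p + d, by rw [add_sub_cancel_left]; exact hd, hD.2.2⟩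
      have hfq : f q = (C1 + 2 * C0) * A + (2 * C0 + 32) * R * A * (S ∩ nb q).card := by
        rw [hf]; simp only; rw [if_pos hqR]
      rw [hfq]
      by_cases hs : q ∉ S ∧ p ∉ S
      · have k1 := hS q hqR hs.1 (q + dirc z) (by rw [add_sub_cancel_left]; exact m1) hnf
        have k2 := hS p hpR hs.2 (p + d) (by rw [add_sub_cancel_left]; exact hd) hD.2.2
        have k3 := h1 n N X W Hv Hf q (dirc z) t p d hn hnN hX hH hE ⟨hqF, m1, hnf⟩ m2 m3 hN k1 k2
          (by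
            intro h4
            exact hs.1 (hT q (by omega) (by omega)))
          (by
            intro h4
            exact hs.2 (hT p (by omega) (by omega)))
        rw [norm_sub_rev]
        refine k3.trans ?_
        have : 0 ≤ 2 * C0 * A + (2 * C0 + 32) * R * A * ((S ∩ nb q).card : ℝ) := by positivity
        nlinarith
      · have hcard : (1 : ℝ) ≤ (S ∩ nb q).card := by
          have : 0 < (S ∩ nb q).card := by
            rw [card_pos]
            have hpn : p ∈ nb q := by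
              rw [mem_nb]
              have u3 := orth_sum m1 m2 m3
              have u1 := m1
              have u2 := m2
              unfold IsUnit4 at u1 u2
              simp only [Prod.ext_iff] at u1 u2
              rcases hp with hp | ⟨-, hp | hp⟩
              · rw [hp]; omega
              · rw [hp]; simp only [Prod.fst_add, Prod.snd_add]; omega
              · rw [hp]; simp only [Prod.fst_add, Prod.snd_add]; omega
            by_cases h5 : q ∈ S
            · exact ⟨q, mem_inter.2 ⟨h5, mem_nb.2 (by omega)⟩⟩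
            · have h6 : p ∈ S := by
                by_contra h7; exact hs ⟨h5, h7⟩
              exact ⟨p, mem_inter.2 ⟨h6, hpn⟩⟩
          exact_mod_cast this
        have k1 := h0 n N X W Hv Hf q (dirc z) hn hnN hX hH hqF m1
        have k2 := h0 n N X W Hv Hf p d hn hnN hX hH hD.1 hd
        rw [← hR, ← hA] at k1 k2
        have k3 : ‖Hv (ctc n p) - Hv (ctc n q)‖ ≤ 32 * R * A := by
          have hK : Q1.M6c.PlaneK X := ⟨W, hX.toPlaneEnv⟩
          rcases hp with hp | ⟨hft, hp | hp⟩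
          · rw [hp, sub_self, norm_zero]; positivity
          · have := step_adj hn hnN hK hH hqF (q' := p) hD.1
              (by rw [hp, add_sub_cancel_left]; exact m2)
            refine this.trans ?_
            rw [← hR, ← hA]
            have : 0 ≤ R * A := by positivity
            linarith
          · have i1 := step_adj hn hnN hK hH hqF (q' := q + t) hft
              (by rw [add_sub_cancel_left]; exact m2)
            have i2 := step_adj hn hnN hK hH hft (q' := p) hD.1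
              (by rw [hp, add_sub_cancel_left]; exact m1)
            have e : Hv (ctc n p) - Hv (ctc n q) = (Hv (ctc n p) - Hv (ctc n (q + t))) +
              (Hv (ctc n (q + t)) - Hv (ctc n q)) := by ring
            rw [e]
            refine (norm_add_le _ _).trans ?_
            rw [← hR, ← hA] at i1 i2
            linarith
        have e : Hv (wp n p d) - Hv (wp n q (dirc z)) =
            -(Hv (ctc n p) - Hv (wp n p d)) + (Hv (ctc n p) - Hv (ctc n q)) +
            (Hv (ctc n q) - Hv (wp n q (dirc z))) := by ring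
        rw [e]
        refine (norm_add_le _ _).trans ?_
        have k4 := norm_add_le (-(Hv (ctc n p) - Hv (wp n p d))) (Hv (ctc n p) - Hv (ctc n q))
        rw [norm_neg] at k4
        have k5 : (2 * C0 + 32) * R * A * 1 ≤ (2 * C0 + 32) * R * A * (S ∩ nb q).card :=
          mul_le_mul_of_nonneg_left hcard (by positivity)
        have k6 : 0 ≤ C1 * A := by positivity
        nlinarith
  -- the two ends
  obtain ⟨p1, hu1, hn1'⟩ := hq1.2
  obtain ⟨p2, hu2, hn2'⟩ := hq2.2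
  obtain ⟨z1, hz1, hz1'⟩ := exists_dir hu1
  obtain ⟨z2, hz2, hz2'⟩ := exists_dir hu2
  have g1 : vx z1 ∈ G := by rw [hz1]; exact hq1G
  have g2 : vx z2 ∈ G := by rw [hz2]; exact hq2G
  have g1' : vx (opc z1) ∉ G := by
    rw [hz1']; exact fun h => hn1' (Fu.full hn1 hf1 h)
  have g2' : vx (opc z2) ∉ G := by
    rw [hz2']; exact fun h => hn2' (Fu.full hn1 hf1 h)
  have horb := ring hn1 hf1 hX.dob g1 g1' g2 g2'
  have hsum := ring_sum (P := PP n G Hv) (f := f) (fun q _ => hf0 q) hP g1 horb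
  have c1 : lab z1 ∉ kap G := by rw [lab_kap]; exact fun h => g1' h.2
  have c2 : lab z2 ∉ kap G := by rw [lab_kap]; exact fun h => g2' h.2
  rw [PP_closed c1, PP_closed c2] at hsum
  unfold wz at hsum
  rw [hz1, hz2] at hsum
  have hdir : ∀ z, IsUnit4 (dirc z) := fun z => (moves z).1
  have k1 := h0 n N X W Hv Hf q1 (dirc z1) hn hnN hX hH hq1.1 (hdir _)
  have k2 := h0 n N X W Hv Hf q2 (dirc z2) hn hnN hX hH hq2.1 (hdir _)
  rw [← hR, ← hA] at k1 k2
  -- the sum
  have hfs : ∑ q ∈ G, f q ≤ (C1 + 2 * C0) * A * F.card +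
      (2 * C0 + 32) * R * A * (9 * S.card) := by
    have s1 : ∑ q ∈ G, f q = ∑ q ∈ G.filter (fun q => Rng n X.E q),
        ((C1 + 2 * C0) * A + (2 * C0 + 32) * R * A * (S ∩ nb q).card) := by
      rw [sum_filter]
    rw [s1, sum_add_distrib, sum_const, nsmul_eq_mul, ← mul_sum]
    have s2 : ((G.filter (fun q => Rng n X.E q)).card : ℝ) ≤ F.card := by
      exact_mod_cast card_le_card (fun q hq => hF q (mem_filter.1 hq).2)
    have s3 : (∑ q ∈ G.filter (fun q => Rng n X.E q), ((S ∩ nb q).card : ℝ)) ≤ 9 * S.card := by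
      exact_mod_cast sum_nb _ S
    have s4 := mul_le_mul_of_nonneg_right s2 (show 0 ≤ (C1 + 2 * C0) * A by positivity)
    have s5 := mul_le_mul_of_nonneg_left s3 (show 0 ≤ (2 * C0 + 32) * R * A by positivity)
    linarith
  have hF1 : (1 : ℝ) ≤ F.card := by
    have : 0 < F.card := card_pos.2 ⟨q1, hF q1 hq1⟩
    exact_mod_cast this
  have e : Hv (ctc n q1) - Hv (ctc n q2) = (Hv (ctc n q1) - Hv (wp n q1 (dirc z1))) -
      (Hv (wp n q2 (dirc z2)) - Hv (wp n q1 (dirc z1))) -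
      (Hv (ctc n q2) - Hv (wp n q2 (dirc z2))) := by ring
  rw [e]
  refine (norm_sub_le _ _).trans ?_
  have k3 := norm_sub_le (Hv (ctc n q1) - Hv (wp n q1 (dirc z1)))
    (Hv (wp n q2 (dirc z2)) - Hv (wp n q1 (dirc z1)))
  have k4 : 2 * C0 * A * 1 ≤ 2 * C0 * A * F.card := mul_le_mul_of_nonneg_left hF1 (by positivity)
  have k5 : 0 ≤ 4 * (C1 + 2 * C0) * (R * A) := by positivity
  have k6 : 0 ≤ 4 * (C1 + 2 * C0) * (R * A) * S.card := by positivity
  have k7 : 0 ≤ 36 * (2 * C0 + 32) * (R * A) := by positivity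
  have k8 : 0 ≤ 2 * C0 * (R * A) * S.card := by positivity
  have k9 : 0 ≤ 36 * (2 * C0 + 32) * A * F.card := by positivity
  nlinarith

end Pool.Agent.H30.Cell
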