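import Mathlib
import Pool.Agent.H30.Cell.Wall
import Pool.Agent.H30.Cell.Side0
import Pool.Agent.H77.Q1.Side
import Pool.Agent.H77.Q1.StarC

set_option autoImplicit false
open Finset

/-! **Wall sum (D4): proved.** -/

namespace Pool.Agent.H30.Cell

open Pool.Agent.H75.Perc Pool.Agent.H75.TwoArm Pool.Agent.H75.Four Pool.Agent.H77.Q1
open Pool.Agent.Q1 (Env)
open Pool.Agent.Q1.M6c (Dobr DEnvX mm)

lemma wp_eq (n : ℤ) (q : ℤ × ℤ) {d : ℤ × ℤ} (hd : IsUnit4 d) : wp n q d = H77.Q1.wp n q d := by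
  unfold H77.Q1.wp
  rcases hd with rfl | rfl | rfl | rfl
  · rw [pt_R, wpR]; refine Prod.ext ?_ ?_ <;> simp only <;> ring
  · rw [pt_T, wpU]; refine Prod.ext ?_ ?_ <;> simp only <;> ring
  · rw [pt_L, wpL]; refine Prod.ext ?_ ?_ <;> simp only <;> ring
  · rw [pt_B, wpD]; refine Prod.ext ?_ ?_ <;> simp only <;> ring

theorem side1_ok : SIDE1 := by
  obtain ⟨C, hC, h⟩ := side_next
  refine ⟨C, by linarith, ?_⟩
  intro n N X W Hv Hf q d t q2 d2 hn _ hX hH hE hD ht hdt hN hs1 hs2 hf1 hf2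
  have tf : ∀ p : ℤ × ℤ, ¬ (|p.1 - (cel n (lab X.c0)).1| ≤ 2 ∧ |p.2 - (cel n (lab X.c0)).2| ≤ 2) →
      TipFar n X p := by
    intro p hp
    unfold TipFar
    by_contra h1
    push Not at h1
    exact hp ⟨by omega, by omega⟩
  obtain ⟨h1, h2, h3⟩ := h n X W Hv Hf q d t hn hX hH hE hD.2.1 ht hdt hD.1 hs1 (tf q hf1)
  rw [norm_sub_rev]
  rcases hN with ⟨g1, g2, rfl, rfl⟩ | ⟨g1, rfl, rfl⟩ | ⟨g1, g2, rfl, rfl⟩
  · rw [wp_eq n _ hD.2.1, wp_eq n _ hD.2.1]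
    exact h1 g1 hs2 (tf _ hf2)
  · rw [wp_eq n _ hD.2.1, wp_eq n _ ht]
    exact h2 hs2
  · rw [wp_eq n _ hD.2.1, wp_eq n _ (isUnit4_neg ht)]
    exact h3 g1 g2 (tf _ hf2)

/-- **D4.** -/
theorem wall_ok : WALL := wall_of side0_ok side1_ok

end Pool.Agent.H30.Cell
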