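import Mathlib
import Pool.Agent.H30.Cell.Cells

set_option autoImplicit false
open Finset

/-! **Cells and ties, part 4**: deep vertices (all labels within distance `3 n` are random) and their cells.
-/

namespace Pool.Agent.H30.Cell

open Pool.Agent.H75.Perc Pool.Agent.H75.TwoArm Pool.Agent.H75.Four Pool.Agent.H77.Q1
open Pool.Agent.H75.TwoArm.StrandAux hiding vx_nxC
open Pool.Agent.Q1.M3 (star kap mem_star_iff mem_kap_iff)

/-! ### Deep vertices -/

/-- all labels within distance `3 n` of the vertex `u` are random -/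
def Deep (n : ℤ) (E : Finset (ℤ × ℤ)) (u : ℤ × ℤ) : Prop :=
  ∀ l : ℤ × ℤ, (l.1 + l.2) % 2 = 1 → |l.1 - 2 * u.1| < 6 * n → |l.2 - 2 * u.2| < 6 * n → l ∈ E

lemma mul_near {n a b k : ℤ} (hn : 0 ≤ n) (h1 : a - k ≤ b) (h2 : b ≤ a + k) :
    n * a - n * k ≤ n * b ∧ n * b ≤ n * a + n * k := by
  constructor
  · rw [← mul_sub]; exact Int.mul_le_mul_of_nonneg_left h1 hn
  · rw [← mul_add]; exact Int.mul_le_mul_of_nonneg_left h2 hn

section
variable {n M : ℤ} {E W : Finset (ℤ × ℤ)} {q0 t f : ℤ × ℤ}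

lemma Deep.gd (hn : 1 ≤ n) {u : ℤ × ℤ} (h : Deep n E u) {c : ℤ × ℤ}
    (h1 : (cv n u).1 - 2 ≤ c.1 ∧ c.1 ≤ (cv n u).1 + 2)
    (h2 : (cv n u).2 - 2 ≤ c.2 ∧ c.2 ≤ (cv n u).2 + 2) : Gd n E c := by
  intro l hl
  rw [mem_lq'] at hl
  have h3 := (cv_eq hn (v := u) (q := cv n u)).1 rfl
  have h4 := mul_near (n := n) (by omega) h1.1 h1.2
  have h5 := mul_near (n := n) (by omega) h2.1 h2.2
  refine h l hl.2 ?_ ?_ <;> rw [abs_lt] <;> omega

lemma Deep.free (hn : 1 ≤ n) {u : ℤ × ℤ} (h : Deep n E u) {b : ℤ × ℤ}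
    (hb : b = cv n u ∨ IsUnit4 (b - cv n u)) : Free n E b := by
  have h1 : ((cv n u).1 - 1 ≤ b.1 ∧ b.1 ≤ (cv n u).1 + 1) ∧
      ((cv n u).2 - 1 ≤ b.2 ∧ b.2 ≤ (cv n u).2 + 1) := by
    rcases hb with rfl | hb
    · omega
    · have := unit_cases hb
      omega
  refine ⟨h.gd hn (by omega) (by omega), fun c hc => ?_⟩
  have := unit_cases hc
  exact h.gd hn (by omega) (by omega)

lemma ediv_succ (hn : 1 ≤ n) (a : ℤ) : (a + 1) / n = a / n ∨ (a + 1) / n = a / n + 1 := by
  have h1 := (ediv_eq hn (a := a) (b := a / n)).1 rfl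
  by_cases h : a + 1 < n * (a / n) + n
  · exact Or.inl ((ediv_eq hn).2 ⟨by omega, h⟩)
  · right
    rw [ediv_eq hn, mul_add, mul_one]
    omega

/-- the cells of neighbouring vertices are equal or adjacent -/
lemma cv_step (hn : 1 ≤ n) {u v : ℤ × ℤ} (h : IsUnit4 (v - u)) :
    cv n v = cv n u ∨ IsUnit4 (cv n v - cv n u) := by
  have h1 := unit_cases h
  unfold cv IsUnit4
  simp only [Prod.ext_iff, Prod.fst_sub, Prod.snd_sub]
  have a1 := ediv_succ hn u.1
  have a2 := ediv_succ hn v.1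
  have a3 := ediv_succ hn u.2
  have a4 := ediv_succ hn v.2
  rcases h1 with ⟨h1, h2⟩ | ⟨h1, h2⟩ | ⟨h1, h2⟩ | ⟨h1, h2⟩
  all_goals first
    | (have h3 : v.1 = u.1 + 1 := by omega
       have h4 : v.2 = u.2 := by omega
       rw [h3, h4]; omega)
    | (have h3 : u.1 = v.1 + 1 := by omega
       have h4 : v.2 = u.2 := by omega
       rw [h3, h4]; omega)
    | (have h3 : v.1 = u.1 := by omega
       have h4 : v.2 = u.2 + 1 := by omega
       rw [h3, h4]; omega)
    | (have h3 : v.1 = u.1 := by omega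
       have h4 : u.2 = v.2 + 1 := by omega
       rw [h3, h4]; omega)

/-- step to a deep vertex -/
lemma Fc.vertex_step (hn : 1 ≤ n) {u v : ℤ × ℤ} (hu : cv n u ∈ Fc n E q0) (h : IsUnit4 (v - u))
    (hv : Deep n E v) : cv n v ∈ Fc n E q0 := by
  rcases cv_step hn h with h1 | h1
  · rw [h1]; exact hu
  · exact Fc.step hn hu h1 (hv.free hn (Or.inl rfl))

/-- boxes of deep vertices -/
lemma Fc.box (hn : 1 ≤ n) {u : ℤ × ℤ} (hu : cv n u ∈ Fc n E q0) {r : ℤ}
    (h : ∀ v : ℤ × ℤ, |v.1 - u.1| ≤ r → |v.2 - u.2| ≤ r → Deep n E v) {v : ℤ × ℤ}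
    (h1 : |v.1 - u.1| ≤ r) (h2 : |v.2 - u.2| ≤ r) : cv n v ∈ Fc n E q0 := by
  have key : ∀ k : ℕ, ∀ v : ℤ × ℤ, |v.1 - u.1| + |v.2 - u.2| ≤ k → |v.1 - u.1| ≤ r →
      |v.2 - u.2| ≤ r → cv n v ∈ Fc n E q0 := by
    intro k
    induction k with
    | zero =>
      intro v h3 _ _
      have h6 := abs_nonneg (v.1 - u.1)
      have h7 := abs_nonneg (v.2 - u.2)
      have h4 : v.1 - u.1 = 0 := abs_eq_zero.1 (by omega)
      have h5 : v.2 - u.2 = 0 := abs_eq_zero.1 (by omega)
      have : v = u := Prod.ext (by omega) (by omega)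
      rw [this]; exact hu
    | succ k ih =>
      intro v h3 h4 h5
      by_cases h6 : v = u
      · rw [h6]; exact hu
      · obtain ⟨w, hw, hw1, hw2, hw3⟩ : ∃ w : ℤ × ℤ, IsUnit4 (v - w) ∧
            |w.1 - u.1| + |w.2 - u.2| ≤ k ∧ |w.1 - u.1| ≤ r ∧ |w.2 - u.2| ≤ r := by
          have h7 : v.1 ≠ u.1 ∨ v.2 ≠ u.2 := by
            by_contra h8
            rw [not_or, not_not, not_not] at h8
            exact h6 (Prod.ext h8.1 h8.2)
          rcases h7 with h7 | h7
          · rcases lt_or_gt_of_ne h7 with h8 | h8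
            · refine ⟨(v.1 + 1, v.2), ?_, ?_, ?_, ?_⟩
              · unfold IsUnit4; simp only [Prod.ext_iff, Prod.fst_sub, Prod.snd_sub]; omega
              all_goals simp only
              · rw [abs_of_nonpos (by omega)]; rw [abs_of_neg (by omega : v.1 - u.1 < 0)] at h3; omega
              · rw [abs_le] at h4 ⊢; omega
              · exact h5
            · refine ⟨(v.1 - 1, v.2), ?_, ?_, ?_, ?_⟩
              · unfold IsUnit4; simp only [Prod.ext_iff, Prod.fst_sub, Prod.snd_sub]; omega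
              all_goals simp only
              · rw [abs_of_nonneg (by omega)]; rw [abs_of_pos (by omega : 0 < v.1 - u.1)] at h3; omega
              · rw [abs_le] at h4 ⊢; omega
              · exact h5
          · rcases lt_or_gt_of_ne h7 with h8 | h8
            · refine ⟨(v.1, v.2 + 1), ?_, ?_, ?_, ?_⟩
              · unfold IsUnit4; simp only [Prod.ext_iff, Prod.fst_sub, Prod.snd_sub]; omega
              all_goals simp only
              · rw [abs_of_nonpos (by omega : v.2 + 1 - u.2 ≤ 0)]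
                rw [abs_of_neg (by omega : v.2 - u.2 < 0)] at h3; omega
              · exact h4
              · rw [abs_le] at h5 ⊢; omega
            · refine ⟨(v.1, v.2 - 1), ?_, ?_, ?_, ?_⟩
              · unfold IsUnit4; simp only [Prod.ext_iff, Prod.fst_sub, Prod.snd_sub]; omega
              all_goals simp only
              · rw [abs_of_nonneg (by omega : 0 ≤ v.2 - 1 - u.2)]
                rw [abs_of_pos (by omega : 0 < v.2 - u.2)] at h3; omega
              · exact h4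
              · rw [abs_le] at h5 ⊢; omega
        exact Fc.vertex_step hn (ih w hw1 hw2 hw3) hw (h v h4 h5)
  exact key (|v.1 - u.1| + |v.2 - u.2|).toNat v (by
    have h6 := abs_nonneg (v.1 - u.1)
    have h7 := abs_nonneg (v.2 - u.2)
    omega) h1 h2

/-- the labels at a vertex of a cell of `Fc` all of whose neighbours are in `Fc`-cells -/
lemma Fc.star (hn : 1 ≤ n) {u : ℤ × ℤ} (hu : cv n u ∈ Fc n E q0) (hd : Deep n E u) {l : ℤ × ℤ}
    (hl : (l.1 + l.2) % 2 = 1) (h : En l u) : ce n l ∈ Fc n E q0 := by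
  unfold ce
  rcases h with h | h
  · rw [← h]; exact hu
  · have h1 := PivAux.eu_ev hl
    have h2 : IsUnit4 (u - eu l) := by rw [h]; exact h1.1
    have h4 : IsUnit4 (eu l - u) := by
      have := isUnit4_neg h2
      rwa [neg_sub] at this
    rcases cv_step hn h4 with h3 | h3
    · rw [h3]; exact hu
    · exact Fc.step hn hu h3 (hd.free hn (Or.inr h3))

end

end Pool.Agent.H30.Cell
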