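import Mathlib
import Pool.Agent.H30.Cell.Deep
import Pool.Agent.H23.Q1.Fill
import Pool.Agent.Q1.M4.Exact

set_option autoImplicit false
open Finset

/-! **Cells and ties, part 5**: if the walls are connected, the complement of the component `Fc` of the
free cells is connected (4-adjacency). -/

namespace Pool.Agent.H30.Cell

open Pool.Agent.H75.Perc Pool.Agent.H75.TwoArm Pool.Agent.H75.Four Pool.Agent.H77.Q1
open Pool.Agent.H75.TwoArm.StrandAux hiding vx_nxC
open Pool.Agent.Q1.M3 (star kap mem_star_iff mem_kap_iff)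

/-- connection in the set `S` of cells -/
def CN (S : Set (ℤ × ℤ)) (a b : ℤ × ℤ) : Prop :=
  Relation.ReflTransGen (fun a b => _root_.Q1.Adj4 a b ∧ a ∈ S ∧ b ∈ S) a b

lemma adj4_of_unit {a b : ℤ × ℤ} (h : IsUnit4 (b - a)) : _root_.Q1.Adj4 a b := by
  have := unit_cases h
  unfold _root_.Q1.Adj4
  simp only [Prod.ext_iff]
  omega

lemma adj4_unit {a b : ℤ × ℤ} (h : _root_.Q1.Adj4 a b) : IsUnit4 (b - a) := by
  unfold _root_.Q1.Adj4 at h
  unfold IsUnit4
  simp only [Prod.ext_iff, Prod.fst_sub, Prod.snd_sub] at h ⊢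
  omega

lemma CN.refl {S : Set (ℤ × ℤ)} (a : ℤ × ℤ) : CN S a a := Relation.ReflTransGen.refl

lemma CN.trans {S : Set (ℤ × ℤ)} {a b c : ℤ × ℤ} (h : CN S a b) (h' : CN S b c) : CN S a c :=
  Relation.ReflTransGen.trans h h'

lemma CN.one {S : Set (ℤ × ℤ)} {a b : ℤ × ℤ} (h : IsUnit4 (b - a)) (ha : a ∈ S) (hb : b ∈ S) :
    CN S a b := Relation.ReflTransGen.single ⟨adj4_of_unit h, ha, hb⟩

lemma CN.symm {S : Set (ℤ × ℤ)} {a b : ℤ × ℤ} (h : CN S a b) : CN S b a := by
  unfold CN at h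
  induction h with
  | refl => exact CN.refl _
  | @tail b c _ hbc ih =>
    refine CN.trans (CN.one ?_ hbc.2.2 hbc.2.1) ih
    have := isUnit4_neg (adj4_unit hbc.1)
    rwa [neg_sub] at this

section
variable {n M : ℤ} {E W : Finset (ℤ × ℤ)} {q0 t f ct : ℤ × ℤ}

/-- the complement of `Fc` -/
def Nc (n : ℤ) (E : Finset (ℤ × ℤ)) (q0 : ℤ × ℤ) : Set (ℤ × ℤ) := ((Fc n E q0 : Set (ℤ × ℤ)))ᶜ

lemma mem_Nc {q : ℤ × ℤ} : q ∈ Nc n E q0 ↔ q ∉ Fc n E q0 := by
  unfold Nc
  rw [Set.mem_compl_iff, mem_coe]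

/-- cells with a label which is not random -/
lemma bad_mem (hn : 1 ≤ n) {b : ℤ × ℤ} (h : ¬ Gd n E b) : b ∈ Nc n E q0 :=
  mem_Nc.2 (not_gd_notMem hn h)

lemma bad_of_label (hn : 1 ≤ n) {l : ℤ × ℤ} (hl : (l.1 + l.2) % 2 = 1) (h : l ∉ E) :
    ¬ Gd n E (ce n l) := fun h1 => h (h1 ((mem_lq hn).2 ⟨rfl, hl⟩))

/-- two bad cells which are king neighbours are connected -/
lemma bad_king (hn : 1 ≤ n) {b c : ℤ × ℤ} (hb : ¬ Gd n E b) (hc : ¬ Gd n E c)
    (h1 : b.1 - 1 ≤ c.1 ∧ c.1 ≤ b.1 + 1) (h2 : b.2 - 1 ≤ c.2 ∧ c.2 ≤ b.2 + 1) :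
    CN (Nc n E q0) b c := by
  have hb' := bad_mem (q0 := q0) hn hb
  have hc' := bad_mem (q0 := q0) hn hc
  by_cases h3 : b.1 = c.1
  · by_cases h4 : b.2 = c.2
    · rw [Prod.ext h3 h4]; exact CN.refl _
    · refine CN.one ?_ hb' hc'
      unfold IsUnit4
      simp only [Prod.ext_iff, Prod.fst_sub, Prod.snd_sub]
      omega
  · by_cases h4 : b.2 = c.2
    · refine CN.one ?_ hb' hc'
      unfold IsUnit4
      simp only [Prod.ext_iff, Prod.fst_sub, Prod.snd_sub]
      omega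
    · -- diagonal
      have hm : (c.1, b.2) ∈ Nc n E q0 := by
        rw [mem_Nc]
        intro h5
        refine hb ((Fc.free hn h5).2 b ?_)
        unfold IsUnit4
        simp only [Prod.ext_iff, Prod.fst_sub, Prod.snd_sub]
        omega
      refine (CN.one ?_ hb' hm).trans (CN.one ?_ hm hc')
      all_goals
        unfold IsUnit4
        simp only [Prod.ext_iff, Prod.fst_sub, Prod.snd_sub]
        omega

lemma ediv_mono (hn : 1 ≤ n) {a b : ℤ} (h : a ≤ b) : a / n ≤ b / n :=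
  Int.ediv_le_ediv (by omega) h

/-- labels at distance at most two have neighbouring cells -/
lemma near_bad (hn : 1 ≤ n) {l m : ℤ × ℤ} (hl : (l.1 + l.2) % 2 = 1) (hm : (m.1 + m.2) % 2 = 1)
    (hlE : l ∉ E) (hmE : m ∉ E) (h1 : l.1 - 2 ≤ m.1 ∧ m.1 ≤ l.1 + 2)
    (h2 : l.2 - 2 ≤ m.2 ∧ m.2 ≤ l.2 + 2) : CN (Nc n E q0) (ce n l) (ce n m) := by
  have key : ∀ a b : ℤ, b ≤ a + 2 → b / 2 / n ≤ a / 2 / n + 1 := by
    intro a b h3
    have h4 : b / 2 ≤ a / 2 + 1 := by omega
    have h5 := ediv_mono hn h4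
    have h6 := ediv_succ hn (a / 2)
    omega
  refine bad_king hn (bad_of_label hn hl hlE) (bad_of_label hn hm hmE) ?_ ?_
  · unfold ce cv eu
    simp only
    have a1 := key l.1 m.1 h1.2
    have a2 := key m.1 l.1 (by omega)
    omega
  · unfold ce cv eu
    simp only
    have a1 := key l.2 m.2 h2.2
    have a2 := key m.2 l.2 (by omega)
    omega

/-- labels joined to `t` by wired labels -/
lemma conn_W (hn : 1 ≤ n) (hd : Disjoint E W) {p : ℤ × ℤ} (hp : (p.1 + p.2) % 2 = 1) (hpE : p ∉ E)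
    (hpt : En p t) {v : ℤ × ℤ} (h : Co W v t) : ∀ l : ℤ × ℤ, (l.1 + l.2) % 2 = 1 → l ∉ E → En l v →
      CN (Nc n E q0) (ce n l) (ce n p) := by
  have h' := h.symm
  have key : ∀ v, Co W t v → ∀ l : ℤ × ℤ, (l.1 + l.2) % 2 = 1 → l ∉ E → En l v →
      CN (Nc n E q0) (ce n l) (ce n p) := by
    intro v hv
    induction hv with
    | refl =>
      intro l hl hlE hlv
      have a1 := (en_iff hl).1 hlv
      have a2 := (en_iff hp).1 hpt
      exact near_bad hn hl hp hlE hpE (by omega) (by omega)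
    | @tail b c _ hbc ih =>
      intro l hl hlE hlv
      have ho : ((b + c).1 + (b + c).2) % 2 = 1 := by
        have := unit_cases hbc.1
        simp only [Prod.fst_add, Prod.snd_add]
        omega
      have hm : b + c ∉ E := fun h1 => disjoint_left.1 hd h1 hbc.2
      have hb : En (b + c) b ∧ En (b + c) c := by
        unfold En
        rcases H69.Q1.ends_of_add hbc.1 rfl with ⟨h3, h4⟩ | ⟨h3, h4⟩
        · exact ⟨Or.inl h3, Or.inr h4⟩
        · exact ⟨Or.inr h3, Or.inl h4⟩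
      have a1 := (en_iff hl).1 hlv
      have a2 := (en_iff ho).1 hb.2
      exact (near_bad hn hl ho hlE hm (by omega) (by omega)).trans (ih _ ho hm hb.1)
  exact key v h'

/-- labels joined to `f` by closed walls -/
lemma conn_L (hn : 1 ≤ n) {p : ℤ × ℤ} (hp : (p.1 + p.2) % 2 = 1) (hpE : p ∉ E)
    (hpf : Fa p f) {g : ℤ × ℤ} (h : Co (du (H75.TwoArm.BB M) (E ∪ W)) g f) :
    ∀ l : ℤ × ℤ, (l.1 + l.2) % 2 = 1 → l ∉ E → Fa l g → CN (Nc n E q0) (ce n l) (ce n p) := by
  have h' := h.symm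
  have key : ∀ g, Co (du (H75.TwoArm.BB M) (E ∪ W)) f g → ∀ l : ℤ × ℤ, (l.1 + l.2) % 2 = 1 →
      l ∉ E → Fa l g → CN (Nc n E q0) (ce n l) (ce n p) := by
    intro g hg
    induction hg with
    | refl =>
      intro l hl hlE hlv
      have a1 := (fa_iff hl).1 hlv
      have a2 := (fa_iff hp).1 hpf
      exact near_bad hn hl hp hlE hpE (by omega) (by omega)
    | @tail b c _ hbc ih =>
      intro l hl hlE hlv
      obtain ⟨h1, h2, h3⟩ := H77.Q1.ad_du.1 hbc
      rw [mem_union, not_or] at h3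
      have ho : ((lbf b c).1 + (lbf b c).2) % 2 = 1 := (mem_BB'.1 h2).2.2
      have hb : Fa (lbf b c) b := ⟨c, h1, rfl⟩
      have hc : Fa (lbf b c) c := by
        refine ⟨b, ?_, ?_⟩
        · have := isUnit4_neg h1
          rwa [neg_sub] at this
        · unfold lbf; rw [add_comm]
      have a1 := (fa_iff hl).1 hlv
      have a2 := (fa_iff ho).1 hc
      exact (near_bad hn hl ho hlE h3.1 (by omega) (by omega)).trans (ih _ ho h3.1 hb)
  exact key g h'

/-- every label which is not random is connected to the root label -/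
lemma conn_root (hn : 1 ≤ n) (h : Wal M E W t f) {p : ℤ × ℤ} (hp : (p.1 + p.2) % 2 = 1)
    (hpE : p ∉ E) (hpt : En p t) (hpf : Fa p f) {l : ℤ × ℤ} (hl : l ∈ H75.TwoArm.BB M)
    (hlE : l ∉ E) : CN (Nc n E q0) (ce n l) (ce n p) := by
  have hlo := (mem_BB'.1 hl).2.2
  by_cases hW : l ∈ W
  · exact conn_W hn h.disj hp hpE hpt (h.wired l hW _ (Or.inl rfl)) l hlo hlE (Or.inl rfl)
  · obtain ⟨g, g', h1, h2⟩ := Pool.Agent.H23.Q1.exists_faces hlo
    exact conn_L hn hp hpE hpf (h.free l hl hlE hW g ⟨g', h1, h2⟩) l hlo hlE ⟨g', h1, h2⟩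

/-! ### rays and the exterior -/

lemma cn_right {S : Set (ℤ × ℤ)} {y a b : ℤ} (hab : a ≤ b) (h : ∀ i, a ≤ i → i ≤ b → (i, y) ∈ S) :
    CN S (a, y) (b, y) := by
  induction b, hab using Int.leInduction with
  | base => exact CN.refl _
  | succ k hk ih =>
    refine (ih (fun i h1 h2 => h i h1 (by omega))).trans (CN.one ?_ (h k hk (by omega))
      (h (k + 1) (by omega) le_rfl))
    unfold IsUnit4
    simp only [Prod.ext_iff, Prod.fst_sub, Prod.snd_sub]
    omega

lemma cn_up {S : Set (ℤ × ℤ)} {x a b : ℤ} (hab : a ≤ b) (h : ∀ i, a ≤ i → i ≤ b → (x, i) ∈ S) :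
    CN S (x, a) (x, b) := by
  induction b, hab using Int.leInduction with
  | base => exact CN.refl _
  | succ k hk ih =>
    refine (ih (fun i h1 h2 => h i h1 (by omega))).trans (CN.one ?_ (h k hk (by omega))
      (h (k + 1) (by omega) le_rfl))
    unfold IsUnit4
    simp only [Prod.ext_iff, Prod.fst_sub, Prod.snd_sub]
    omega

lemma cn_hor {S : Set (ℤ × ℤ)} {y a b : ℤ} (h : ∀ i, min a b ≤ i → i ≤ max a b → (i, y) ∈ S) :
    CN S (a, y) (b, y) := by
  rcases le_total a b with hab | hab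
  · exact cn_right hab (fun i h1 h2 => h i (by omega) (by omega))
  · exact (cn_right hab (fun i h1 h2 => h i (by omega) (by omega))).symm

lemma cn_ver {S : Set (ℤ × ℤ)} {x a b : ℤ} (h : ∀ i, min a b ≤ i → i ≤ max a b → (x, i) ∈ S) :
    CN S (x, a) (x, b) := by
  rcases le_total a b with hab | hab
  · exact cn_up hab (fun i h1 h2 => h i (by omega) (by omega))
  · exact (cn_up hab (fun i h1 h2 => h i (by omega) (by omega))).symm

/-- the exterior of a box is connected -/
lemma cn_out {S : Set (ℤ × ℤ)} {R : ℤ} (_hR : 0 ≤ R)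
    (hS : ∀ p : ℤ × ℤ, (R < p.1 ∨ p.1 < -R ∨ R < p.2 ∨ p.2 < -R) → p ∈ S) {p : ℤ × ℤ}
    (hp : R < p.1 ∨ p.1 < -R ∨ R < p.2 ∨ p.2 < -R) : CN S p (R + 1, R + 1) := by
  obtain ⟨i, k⟩ := p
  rcases hp with h | h | h | h
  · refine (cn_ver (b := R + 1) (fun j h1 h2 => hS _ ?_)).trans (cn_hor (fun j h1 h2 => hS _ ?_))
    · simp only at h ⊢; omega
    · simp only at h ⊢; omega
  · refine (cn_ver (b := R + 1) (fun j h1 h2 => hS _ ?_)).trans (cn_hor (fun j h1 h2 => hS _ ?_))
    · simp only at h ⊢; omega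
    · simp only at h ⊢; omega
  · refine (cn_hor (b := R + 1) (fun j h1 h2 => hS _ ?_)).trans (cn_ver (fun j h1 h2 => hS _ ?_))
    · simp only at h ⊢; omega
    · simp only at h ⊢; omega
  · refine (cn_hor (b := R + 1) (fun j h1 h2 => hS _ ?_)).trans (cn_ver (fun j h1 h2 => hS _ ?_))
    · simp only at h ⊢; omega
    · simp only at h ⊢; omega

/-- a cell with a label outside the box of radius `M - 1` is not in `Fc` -/
lemma out_cell (_hn : 1 ≤ n) (hE : E ⊆ H75.TwoArm.BB (M - 1)) {q l : ℤ × ℤ}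
    (hl : l ∈ lq n q) (h : l ∉ H75.TwoArm.BB (M - 1)) : ¬ Gd n E q := fun h1 => h (hE (h1 hl))

lemma far_bad (hn : 1 ≤ n) (hM : 1 ≤ M) (hE : E ⊆ H75.TwoArm.BB (M - 1)) {p : ℤ × ℤ}
    (h : M < p.1 ∨ p.1 < -M ∨ M < p.2 ∨ p.2 < -M) : ¬ Gd n E p := by
  have hl : (2 * (n * p.1), 2 * (n * p.2) + 1) ∈ lq n p := mem_lq'.2 (by simp only; omega)
  refine out_cell hn hE hl ?_
  rw [mem_BB']
  simp only
  rcases h with h | h | h | h
  · have : n * M ≤ n * p.1 := Int.mul_le_mul_of_nonneg_left (by omega) (by omega)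
    have : 1 * M ≤ n * M := Int.mul_le_mul_of_nonneg_right hn (by omega)
    omega
  · have h1 : n * p.1 ≤ n * (-M) := Int.mul_le_mul_of_nonneg_left (by omega) (by omega)
    have : 1 * M ≤ n * M := Int.mul_le_mul_of_nonneg_right hn (by omega)
    rw [mul_neg] at h1
    omega
  · have : n * M ≤ n * p.2 := Int.mul_le_mul_of_nonneg_left (by omega) (by omega)
    have : 1 * M ≤ n * M := Int.mul_le_mul_of_nonneg_right hn (by omega)
    omega
  · have h1 : n * (p.2 + 1) ≤ n * (-M) := Int.mul_le_mul_of_nonneg_left (by omega) (by omega)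
    have : 1 * M ≤ n * M := Int.mul_le_mul_of_nonneg_right hn (by omega)
    rw [mul_neg, mul_add, mul_one] at h1
    omega

/-- the cell of an outer label is connected to infinity -/
lemma ray_out (hn : 1 ≤ n) (hM : 1 ≤ M) (hE : E ⊆ H75.TwoArm.BB (M - 1)) {l : ℤ × ℤ}
    (hl : (l.1 + l.2) % 2 = 1) (h : l ∉ H75.TwoArm.BB (M - 1)) :
    CN (Nc n E q0) (ce n l) (M + 1, M + 1) := by
  have hS : ∀ p : ℤ × ℤ, (M < p.1 ∨ p.1 < -M ∨ M < p.2 ∨ p.2 < -M) → p ∈ Nc n E q0 := fun p hp =>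
    bad_mem hn (far_bad hn hM hE hp)
  obtain ⟨i, j, hij⟩ : ∃ i j, ce n l = (i, j) := ⟨_, _, rfl⟩
  have hlq := (mem_lq hn).2 ⟨hij, hl⟩
  have hlq' := mem_lq'.1 hlq
  simp only at hlq'
  rw [mem_BB'] at h
  rw [hij]
  have h' : 2 * (M - 1) < l.1 ∨ l.1 < -(2 * (M - 1)) ∨ 2 * (M - 1) < l.2 ∨ l.2 < -(2 * (M - 1)) := by
    omega
  have e : ∀ a b : ℤ, n * (a + b) = n * a + n * b := fun a b => by ring
  rcases h' with h' | h' | h' | h'
  · -- to the right
    have hk : ∀ k, i ≤ k → k ≤ max i (M + 1) → (k, j) ∈ Nc n E q0 := by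
      intro k h1 _
      have h2 : 0 ≤ n * (k - i) := Int.mul_nonneg (by omega) (by omega)
      have h3 := e i (k - i)
      rw [add_sub_cancel] at h3
      have h4 : (l.1 + 2 * (n * (k - i)), l.2) ∈ lq n (k, j) := mem_lq'.2 (by simp only; omega)
      refine bad_mem hn (out_cell hn hE h4 ?_)
      rw [mem_BB']
      simp only
      omega
    refine (cn_right (b := max i (M + 1)) (by omega) hk).trans (cn_out (by omega) hS ?_)
    left; simp only; omega
  · have hk : ∀ k, min i (-M - 1) ≤ k → k ≤ i → (k, j) ∈ Nc n E q0 := by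
      intro k _ h1
      have h2 : 0 ≤ n * (i - k) := Int.mul_nonneg (by omega) (by omega)
      have h3 := e k (i - k)
      rw [add_sub_cancel] at h3
      have h4 : (l.1 - 2 * (n * (i - k)), l.2) ∈ lq n (k, j) := mem_lq'.2 (by simp only; omega)
      refine bad_mem hn (out_cell hn hE h4 ?_)
      rw [mem_BB']
      simp only
      omega
    refine (cn_right (a := min i (-M - 1)) (by omega) hk).symm.trans (cn_out (by omega) hS ?_)
    right; left; simp only; omega
  · have hk : ∀ k, j ≤ k → k ≤ max j (M + 1) → (i, k) ∈ Nc n E q0 := by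
      intro k h1 _
      have h2 : 0 ≤ n * (k - j) := Int.mul_nonneg (by omega) (by omega)
      have h3 := e j (k - j)
      rw [add_sub_cancel] at h3
      have h4 : (l.1, l.2 + 2 * (n * (k - j))) ∈ lq n (i, k) := mem_lq'.2 (by simp only; omega)
      refine bad_mem hn (out_cell hn hE h4 ?_)
      rw [mem_BB']
      simp only
      omega
    refine (cn_up (b := max j (M + 1)) (by omega) hk).trans (cn_out (by omega) hS ?_)
    right; right; left; simp only; omega
  · have hk : ∀ k, min j (-M - 1) ≤ k → k ≤ j → (i, k) ∈ Nc n E q0 := by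
      intro k _ h1
      have h2 : 0 ≤ n * (j - k) := Int.mul_nonneg (by omega) (by omega)
      have h3 := e k (j - k)
      rw [add_sub_cancel] at h3
      have h4 : (l.1, l.2 - 2 * (n * (j - k))) ∈ lq n (i, k) := mem_lq'.2 (by simp only; omega)
      refine bad_mem hn (out_cell hn hE h4 ?_)
      rw [mem_BB']
      simp only
      omega
    refine (cn_up (a := min j (-M - 1)) (by omega) hk).symm.trans (cn_out (by omega) hS ?_)
    right; right; right; simp only; omega

/-- **The complement of `Fc` is connected.** -/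
theorem compl_conn (hn : 1 ≤ n) (hM : 1 ≤ M) (h : Wal M E W t f) {p : ℤ × ℤ}
    (hp : (p.1 + p.2) % 2 = 1) (hpE : p ∉ E) (hpt : En p t) (hpf : Fa p f) :
    _root_.Q1.CellConn ((Fc n E q0 : Set (ℤ × ℤ))ᶜ) := by
  have hS : ∀ p : ℤ × ℤ, (M < p.1 ∨ p.1 < -M ∨ M < p.2 ∨ p.2 < -M) → p ∈ Nc n E q0 := fun p hp =>
    bad_mem hn (far_bad hn hM h.hE hp)
  -- all bad cells
  have hout : ∀ l : ℤ × ℤ, (l.1 + l.2) % 2 = 1 → l ∉ E → CN (Nc n E q0) (ce n l) (M + 1, M + 1) := by
    intro l hl hlE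
    by_cases h1 : l ∈ H75.TwoArm.BB (M - 1)
    · have h2 : l ∈ H75.TwoArm.BB M := by
        rw [mem_BB'] at h1 ⊢
        omega
      have h3 : (2 * M, 2 * M - 1) ∈ H75.TwoArm.BB M := by
        rw [mem_BB']
        simp only
        omega
      have h4 : (2 * M, 2 * M - 1) ∉ H75.TwoArm.BB (M - 1) := by
        rw [mem_BB']
        simp only
        omega
      exact (conn_root hn h hp hpE hpt hpf h2 hlE).trans
        ((conn_root hn h hp hpE hpt hpf h3 (fun h5 => h4 (h.hE h5))).symm.trans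
          (ray_out hn hM h.hE (by simp only; omega) h4))
    · exact ray_out hn hM h.hE hl h1
  have hbad : ∀ b, ¬ Gd n E b → CN (Nc n E q0) b (M + 1, M + 1) := by
    intro b hb
    obtain ⟨l, hl, hlE⟩ : ∃ l ∈ lq n b, l ∉ E := by
      by_contra h1
      push Not at h1
      exact hb h1
    have h2 := (mem_lq hn).1 hl
    have h3 := hout l h2.2 hlE
    rwa [h2.1] at h3
  have hnf : ∀ q, ¬ Free n E q → q ∈ Nc n E q0 → CN (Nc n E q0) q (M + 1, M + 1) := by
    intro q hq hqN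
    by_cases h1 : Gd n E q
    · obtain ⟨b, hb, hb'⟩ : ∃ b, IsUnit4 (b - q) ∧ ¬ Gd n E b := by
        by_contra h2
        push Not at h2
        exact hq ⟨h1, h2⟩
      exact (CN.one hb hqN (bad_mem hn hb')).trans (hbad b hb')
    · exact hbad q h1
  have hall : ∀ k : ℕ, ∀ q ∈ Nc n E q0, M + 1 - q.1 ≤ k → CN (Nc n E q0) q (M + 1, M + 1) := by
    intro k
    induction k with
    | zero =>
      intro q _ hk
      exact cn_out (by omega) hS (Or.inl (by omega))
    | succ k ih =>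
      intro q hq hk
      by_cases h1 : Free n E q
      · have h2 : IsUnit4 ((q.1 + 1, q.2) - q) := by
          unfold IsUnit4
          simp only [Prod.ext_iff, Prod.fst_sub, Prod.snd_sub]
          omega
        have h3 : (q.1 + 1, q.2) ∈ Nc n E q0 := by
          rw [mem_Nc] at hq ⊢
          intro h4
          refine hq (Fc.step hn h4 ?_ h1)
          unfold IsUnit4
          simp only [Prod.ext_iff, Prod.fst_sub, Prod.snd_sub]
          omega
        exact (CN.one h2 hq h3).trans (ih _ h3 (by simp only; omega))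
      · exact hnf q h1 hq
  intro a ha b hb
  exact (hall (M + 1 - a.1).toNat a ha (by omega)).trans
    (hall (M + 1 - b.1).toNat b hb (by omega)).symm

end

end Pool.Agent.H30.Cell
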